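import Pool.Agent.W5h23.SF.Fam

/-!
Smooth families have nearly minimal energy, in the form needed for the criteria of the starting files.
-/

set_option autoImplicit false

namespace Pool.Agent.W5h23.SF

open Finset Real Filter

/-- the constants can be chosen such that the logarithms absorb them -/
lemma log_absorb (C : ℝ) : ∃ N₀ : ℕ, ∀ N : ℕ, N₀ ≤ N → C ≤ Real.log N ∧ 1 ≤ Real.log N := by
  have h := (Real.tendsto_log_atTop.comp tendsto_natCast_atTop_atTop).eventually_ge_atTop (max C 1)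
  obtain ⟨N₀, h0⟩ := eventually_atTop.1 h
  exact ⟨N₀, fun N hN => ⟨(le_max_left _ _).trans (h0 N hN), (le_max_right _ _).trans (h0 N hN)⟩⟩

/-- `energy · N ≤ log ^ E N · #S ^ (2 p)` for dense subsets of smooth families -/
theorem energy_log (Q : ℕ) (hQ : 1 ≤ Q) (c0 C0 : ℝ) (hc0 : 0 < c0) (hC0 : 1 ≤ C0) (D : ℕ) :
    ∃ p E N₀ : ℕ, 1 ≤ p ∧ ∀ (M N : ℕ) (A : ℝ) (f : ℝ → ℝ), N₀ ≤ N → 1 ≤ M → 1 ≤ A →
      A ≤ (M : ℝ) ^ Q → (N : ℝ) ≤ Real.log N ^ D * A → Smooth (Q + 2) c0 C0 M A f →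
      ∀ S : Finset ℕ, S ⊆ Ico M (2 * M) → (M : ℝ) ≤ Real.log N ^ D * S.card → ∀ c : ℤ,
      (Nat.card {q : (Fin p → {m // m ∈ S}) × (Fin p → {m // m ∈ S}) //
        ∑ j, (c + ⌊f ((q.1 j : ℕ) : ℝ)⌋) = ∑ j, (c + ⌊f ((q.2 j : ℕ) : ℝ)⌋)} : ℝ) * N ≤
          Real.log N ^ E * (Fintype.card {m // m ∈ S} : ℝ) ^ (2 * p) := by
  obtain ⟨p, C, hp, hC, h⟩ := floor_energy Q hQ c0 C0 hc0 hC0
  obtain ⟨N₀, hN₀⟩ := log_absorb C
  refine ⟨p, 1 + D + D * (2 * p), N₀, hp, ?_⟩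
  intro M N A f hN hM hA hAQ hNA hf S hS hcard c
  obtain ⟨hl, hl1⟩ := hN₀ N hN
  have h1 := h M A f hM hA hAQ hf S hS c
  have hA0 : 0 < A := by linarith
  have hl0 : 0 < Real.log N := by linarith
  have e1 : (Fintype.card {m // m ∈ S} : ℝ) = S.card := by simp
  rw [e1]
  have h2 : (M : ℝ) ^ (2 * p) ≤ Real.log N ^ (D * (2 * p)) * (S.card : ℝ) ^ (2 * p) := by
    calc (M : ℝ) ^ (2 * p) ≤ (Real.log N ^ D * S.card) ^ (2 * p) := pow_le_pow_left₀ (Nat.cast_nonneg _) hcard _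
      _ = _ := by rw [mul_pow, ← pow_mul]
  calc _ ≤ C * (M : ℝ) ^ (2 * p) / A * N := mul_le_mul_of_nonneg_right h1 (Nat.cast_nonneg _)
    _ ≤ C * (M : ℝ) ^ (2 * p) / A * (Real.log N ^ D * A) := by gcongr
    _ = C * (M : ℝ) ^ (2 * p) * Real.log N ^ D := by field_simp
    _ ≤ Real.log N * (Real.log N ^ (D * (2 * p)) * (S.card : ℝ) ^ (2 * p)) * Real.log N ^ D := by gcongr
    _ = _ := by ring

/-- the same with a power of `N` -/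
theorem energy_pow (Q : ℕ) (hQ : 1 ≤ Q) (c0 C0 : ℝ) (hc0 : 0 < c0) (hC0 : 1 ≤ C0) :
    ∃ p : ℕ, 1 ≤ p ∧ ∀ δ : ℝ, 0 < δ → ∃ N₀ : ℕ, ∀ (M N : ℕ) (A : ℝ) (f : ℝ → ℝ), N₀ ≤ N → 1 ≤ M → 1 ≤ A →
      A ≤ (M : ℝ) ^ Q → (N : ℝ) ≤ (N : ℝ) ^ δ * A → Smooth (Q + 2) c0 C0 M A f →
      ∀ S : Finset ℕ, S ⊆ Ico M (2 * M) → (M : ℝ) ≤ (N : ℝ) ^ δ * S.card → ∀ c : ℤ,
      (Nat.card {q : (Fin p → {m // m ∈ S}) × (Fin p → {m // m ∈ S}) //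
        ∑ j, (c + ⌊f ((q.1 j : ℕ) : ℝ)⌋) = ∑ j, (c + ⌊f ((q.2 j : ℕ) : ℝ)⌋)} : ℝ) * N ≤
          (N : ℝ) ^ (δ * (2 * p + 2)) * (Fintype.card {m // m ∈ S} : ℝ) ^ (2 * p) := by
  obtain ⟨p, C, hp, hC, h⟩ := floor_energy Q hQ c0 C0 hc0 hC0
  refine ⟨p, hp, fun δ hδ => ?_⟩
  obtain ⟨N₀, hN₀⟩ : ∃ N₀ : ℕ, ∀ N : ℕ, N₀ ≤ N → C ≤ (N : ℝ) ^ δ ∧ 1 ≤ N := by
    have h := ((tendsto_rpow_atTop hδ).comp tendsto_natCast_atTop_atTop).eventually_ge_atTop C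
    obtain ⟨N₀, h0⟩ := eventually_atTop.1 (h.and (eventually_ge_atTop 1))
    exact ⟨N₀, fun N hN => h0 N hN⟩
  refine ⟨N₀, ?_⟩
  intro M N A f hN hM hA hAQ hNA hf S hS hcard c
  obtain ⟨hl, hl1⟩ := hN₀ N hN
  have h1 := h M A f hM hA hAQ hf S hS c
  have hA0 : 0 < A := by linarith
  have hN0 : (0 : ℝ) < N := by exact_mod_cast hl1
  have e1 : (Fintype.card {m // m ∈ S} : ℝ) = S.card := by simp
  rw [e1]
  have h2 : (M : ℝ) ^ (2 * p) ≤ ((N : ℝ) ^ δ) ^ (2 * p) * (S.card : ℝ) ^ (2 * p) := by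
    calc (M : ℝ) ^ (2 * p) ≤ ((N : ℝ) ^ δ * S.card) ^ (2 * p) := pow_le_pow_left₀ (Nat.cast_nonneg _) hcard _
      _ = _ := by rw [mul_pow]
  calc _ ≤ C * (M : ℝ) ^ (2 * p) / A * N := mul_le_mul_of_nonneg_right h1 (Nat.cast_nonneg _)
    _ ≤ C * (M : ℝ) ^ (2 * p) / A * ((N : ℝ) ^ δ * A) := by gcongr
    _ = C * (M : ℝ) ^ (2 * p) * (N : ℝ) ^ δ := by field_simp
    _ ≤ (N : ℝ) ^ δ * (((N : ℝ) ^ δ) ^ (2 * p) * (S.card : ℝ) ^ (2 * p)) * (N : ℝ) ^ δ := by gcongr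
    _ = ((N : ℝ) ^ δ) ^ (2 * p + 2) * (S.card : ℝ) ^ (2 * p) := by ring
    _ = _ := by
      rw [← Real.rpow_natCast, ← Real.rpow_mul hN0.le]
      push_cast
      rfl

/-- constants can be added -/
theorem Smooth.add_const {K : ℕ} {c C M A : ℝ} {f : ℝ → ℝ} (h : Smooth K c C M A f) (b : ℝ) :
    Smooth K c C M A (fun t => b + f t) := by
  obtain ⟨D, h0, h1, h2⟩ := h
  refine ⟨fun j => if j = 0 then (fun t => b + f t) else D j, by simp, ?_, ?_⟩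
  · intro j hj t ht
    rcases Nat.eq_zero_or_pos j with h | h
    · subst h
      have h3 := h1 0 hj t ht
      rw [h0] at h3
      simpa using h3.const_add b
    · have h3 := h1 j hj t ht
      simpa [Nat.pos_iff_ne_zero.1 h] using h3
  · intro j hj1 hjK t ht
    have h3 := h2 j hj1 hjK t ht
    simpa [Nat.pos_iff_ne_zero.1 hj1] using h3

end Pool.Agent.W5h23.SF
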