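import Pool.Agent.TH212.PL.L1

/-!
The energy of the values of a polynomial at a dense set of integers, in the form needed for the criteria of the starting
files.
-/

set_option autoImplicit false

namespace Pool.Agent.W5h23.SF

open Finset Polynomial

/-- the order of the energy is positive -/
lemma energy_poly_pos (F : ℤ[X]) (hF : 1 ≤ F.natDegree) :
    ∃ p : ℕ, ∃ C : ℝ, 1 ≤ p ∧ 0 < C ∧ ∀ x : ℕ, 1 ≤ x →
      (Pool.Agent.H373R2.T7.energy p x (fun m => F.eval (m : ℤ)) : ℝ) * (x : ℝ) ^ F.natDegree ≤ C * (x : ℝ) ^ (2 * p) := by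
  obtain ⟨p₀, C, hC, hen⟩ := Pool.Agent.TH212.PL.energy_poly' F hF
  have hp : 1 ≤ p₀ := by
    by_contra hp0
    have hp0' : p₀ = 0 := by omega
    subst hp0'
    obtain ⟨x, hx⟩ := exists_nat_gt C
    have h1 := hen (x + 1) (by omega)
    have h2 : Pool.Agent.H373R2.T7.energy 0 (x + 1) (fun m => F.eval (m : ℤ)) = 1 := by
      unfold Pool.Agent.H373R2.T7.energy
      simp
    rw [h2] at h1
    have h3 : ((x + 1 : ℕ) : ℝ) ≤ ((x + 1 : ℕ) : ℝ) ^ F.natDegree := by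
      apply le_self_pow₀ _ (by omega)
      push_cast
      have : (0 : ℝ) ≤ x := Nat.cast_nonneg x
      linarith
    push_cast at h1 h3
    simp only [one_mul, mul_zero, pow_zero, mul_one] at h1
    linarith
  exact ⟨p₀, C, hp, hC, hen⟩

lemma energy_sub (p M : ℕ) (w : ℕ → ℤ) (c : ℤ) (S : Finset ℕ) (hS : S ⊆ Finset.Icc 1 M) :
    Nat.card {q : (Fin p → {m // m ∈ S}) × (Fin p → {m // m ∈ S}) //
      ∑ j, (c + w (q.1 j)) = ∑ j, (c + w (q.2 j))} ≤ Pool.Agent.H373R2.T7.energy p M w := by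
  classical
  unfold Pool.Agent.H373R2.T7.energy
  rw [Nat.card_eq_fintype_card, Fintype.card_subtype]
  apply card_le_card_of_injOn (fun q => (fun j => (q.1 j : ℕ), fun j => (q.2 j : ℕ)))
  · intro q hq
    rw [mem_coe, mem_filter] at hq
    rw [mem_coe, mem_filter, mem_product, Fintype.mem_piFinset, Fintype.mem_piFinset]
    refine ⟨⟨fun j => hS (q.1 j).2, fun j => hS (q.2 j).2⟩, ?_⟩
    have h1 := hq.2
    simp only [sum_add_distrib] at h1
    exact add_left_cancel h1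
  · intro q _ q' _ h2
    simp only [Prod.mk.injEq] at h2
    apply Prod.ext
    · funext j
      exact Subtype.ext (congrFun h2.1 j)
    · funext j
      exact Subtype.ext (congrFun h2.2 j)

/-- `energy · N ≤ log ^ E N · #S ^ (2 p)`, `N = M ^ k`, for dense sets of values of a polynomial of degree `k` -/
theorem energy_poly_log (F : ℤ[X]) (hF : 1 ≤ F.natDegree) (D : ℕ) : ∃ p E M₀ : ℕ, 1 ≤ p ∧ ∀ M : ℕ, M₀ ≤ M →
    ∀ S : Finset ℕ, S ⊆ Finset.Icc 1 M → (M : ℝ) ≤ Real.log (M ^ F.natDegree : ℕ) ^ D * S.card → ∀ c : ℤ,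
    (Nat.card {q : (Fin p → {m // m ∈ S}) × (Fin p → {m // m ∈ S}) //
      ∑ j, (c + F.eval ((q.1 j : ℕ) : ℤ)) = ∑ j, (c + F.eval ((q.2 j : ℕ) : ℤ))} : ℝ) * (M ^ F.natDegree : ℕ) ≤
        Real.log (M ^ F.natDegree : ℕ) ^ E * (Fintype.card {m // m ∈ S} : ℝ) ^ (2 * p) := by
  obtain ⟨p, C, hp, hC, hen⟩ := energy_poly_pos F hF
  obtain ⟨m1, h1⟩ := Pool.Agent.TH212.PL.log_large (max C 1)
  refine ⟨p, 1 + D * (2 * p), m1 + 1, hp, fun M hM S hS hcard c => ?_⟩
  have hMp : M ≤ M ^ F.natDegree := Nat.le_self_pow (by omega) M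
  obtain ⟨_, hLC⟩ := h1 (M ^ F.natDegree) (by omega)
  have hLC1 : C ≤ Real.log (M ^ F.natDegree : ℕ) := (le_max_left _ _).trans hLC
  have hL1 : 1 ≤ Real.log (M ^ F.natDegree : ℕ) := (le_max_right _ _).trans hLC
  have e1 := energy_sub p M (fun m => F.eval (m : ℤ)) c S hS
  have e2 := hen M (by omega)
  have e3 : (Fintype.card {m // m ∈ S} : ℝ) = S.card := by simp
  rw [e3]
  have h2 : (M : ℝ) ^ (2 * p) ≤ Real.log (M ^ F.natDegree : ℕ) ^ (D * (2 * p)) * (S.card : ℝ) ^ (2 * p) := by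
    calc (M : ℝ) ^ (2 * p) ≤ (Real.log (M ^ F.natDegree : ℕ) ^ D * S.card) ^ (2 * p) :=
          pow_le_pow_left₀ (Nat.cast_nonneg _) hcard _
      _ = _ := by rw [mul_pow, ← pow_mul]
  calc _ ≤ (Pool.Agent.H373R2.T7.energy p M (fun m => F.eval (m : ℤ)) : ℝ) * (M ^ F.natDegree : ℕ) :=
        mul_le_mul_of_nonneg_right (Nat.cast_le.2 e1) (Nat.cast_nonneg _)
    _ ≤ C * (M : ℝ) ^ (2 * p) := by push_cast; exact e2
    _ ≤ Real.log (M ^ F.natDegree : ℕ) * (Real.log (M ^ F.natDegree : ℕ) ^ (D * (2 * p)) * (S.card : ℝ) ^ (2 * p)) := by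
        apply mul_le_mul hLC1 h2 (by positivity) (by linarith)
    _ = _ := by rw [pow_add, pow_one]; ring

end Pool.Agent.W5h23.SF
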