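import Pool.Agent.W5h23.SF.Real

/-!
The additive energy of the integral parts of the values of smooth functions.
-/

set_option autoImplicit false

namespace Pool.Agent.W5h23.SF

open Finset Real

/-- `f` has derivatives of the orders `≤ K + 1` on `[M, 2 M]`, and the ones of the orders `1 ≤ j ≤ K` are, up to sign,
between `c A / M ^ j` and `C A / M ^ j`. -/
def Smooth (K : ℕ) (c C M A : ℝ) (f : ℝ → ℝ) : Prop :=
  ∃ D : ℕ → ℝ → ℝ, D 0 = f ∧ (∀ j ≤ K, ∀ t ∈ Set.Icc M (2 * M), HasDerivAt (D j) (D (j + 1) t) t) ∧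
    ∀ j, 1 ≤ j → j ≤ K → ∀ t ∈ Set.Icc M (2 * M), c * A ≤ |D j t| * M ^ j ∧ |D j t| * M ^ j ≤ C * A

lemma exists_sign {g : ℝ → ℝ} {a b : ℝ} (hg : ContinuousOn g (Set.Icc a b)) (h0 : ∀ t ∈ Set.Icc a b, g t ≠ 0) :
    ∃ σ : ℝ, (σ = 1 ∨ σ = -1) ∧ ∀ t ∈ Set.Icc a b, σ * g t = |g t| := by
  rcases isPreconnected_Icc.eq_or_eq_neg_of_sq_eq (f := fun t => |g t|) (g := g) hg.abs hg
    (fun t _ => by simp [Pi.pow_apply, sq_abs]) (fun {t} ht => h0 t ht) with h | h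
  · exact ⟨1, Or.inl rfl, fun t ht => by rw [one_mul]; exact (h ht).symm⟩
  · exact ⟨-1, Or.inr rfl, fun t ht => by rw [neg_one_mul]; exact (h ht).symm⟩

lemma hyp_of {K : ℕ} {c C M A : ℝ} {f : ℝ → ℝ} (hc : 0 < c) (_hM : 0 < M) (hA : 0 < A) (h : Smooth K c C M A f) :
    ∃ (s : ℕ → ℝ) (φ : ℕ → ℝ → ℝ), Hyp K M c C s φ ∧ ∀ t, A * φ 0 t = f t := by
  obtain ⟨D, hD0, hder, hbd⟩ := h
  have h1 : ∀ j, ∃ σ : ℝ, (σ = 1 ∨ σ = -1) ∧ (1 ≤ j → j ≤ K → ∀ t ∈ Set.Icc M (2 * M), σ * D j t = |D j t|) := by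
    intro j
    by_cases hj : 1 ≤ j ∧ j ≤ K
    · obtain ⟨σ, h2, h3⟩ := exists_sign (g := D j) (a := M) (b := 2 * M)
        (fun t ht => (hder j hj.2 t ht).continuousAt.continuousWithinAt) (by
          intro t ht h0
          have := (hbd j hj.1 hj.2 t ht).1
          rw [h0, abs_zero, zero_mul] at this
          have : 0 < c * A := by positivity
          linarith)
      exact ⟨σ, h2, fun _ _ => h3⟩
    · exact ⟨1, Or.inl rfl, fun h2 h3 => absurd ⟨h2, h3⟩ hj⟩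
  choose s hs1 hs2 using h1
  refine ⟨s, fun j t => D j t / A, ⟨hs1, fun m hm t ht => (hder m hm t ht).div_const A, fun m hm1 hm2 t ht => ?_⟩,
    fun t => ?_⟩
  · obtain ⟨h3, h4⟩ := hbd m hm1 hm2 t ht
    have e1 : s m * (D m t / A) * M ^ m = |D m t| * M ^ m / A := by
      rw [← hs2 m hm1 hm2 t ht]; ring
    rw [e1, le_div_iff₀ hA, div_le_iff₀ hA]
    exact ⟨h3, h4⟩
  · simp only
    rw [hD0]
    field_simp

/-- the sums of integral parts -/
lemma floor_close {p : ℕ} {κ : Type} (c : ℤ) (g : κ → ℝ) (x y : Fin p → κ)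
    (h : ∑ j, (c + ⌊g (x j)⌋) = ∑ j, (c + ⌊g (y j)⌋)) : |∑ j, g (x j) - ∑ j, g (y j)| ≤ p := by
  have h1 : ∀ z : Fin p → κ, ∑ j, g (z j) = (∑ j, (c + ⌊g (z j)⌋) : ℤ) - (p : ℝ) * c + ∑ j, Int.fract (g (z j)) := by
    intro z
    push_cast
    rw [sum_add_distrib]
    simp only [sum_const, card_univ, Fintype.card_fin, nsmul_eq_mul]
    have : ∑ j, g (z j) = ∑ j, ((⌊g (z j)⌋ : ℝ) + Int.fract (g (z j))) := by
      simp only [Int.floor_add_fract]
    rw [this, sum_add_distrib]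
    ring
  have h2 : ∀ z : Fin p → κ, 0 ≤ ∑ j, Int.fract (g (z j)) ∧ ∑ j, Int.fract (g (z j)) ≤ p := by
    intro z
    refine ⟨sum_nonneg fun j _ => Int.fract_nonneg _, ?_⟩
    calc ∑ j, Int.fract (g (z j)) ≤ ∑ j : Fin p, (1 : ℝ) := sum_le_sum fun j _ => (Int.fract_lt_one _).le
      _ = p := by simp
  rw [h1 x, h1 y, h, abs_le]
  have hx := h2 x
  have hy := h2 y
  constructor <;> linarith

/-- **The energy of the integral parts of a smooth function.** -/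
theorem floor_energy (Q : ℕ) (hQ : 1 ≤ Q) (c0 C0 : ℝ) (hc0 : 0 < c0) (hC0 : 1 ≤ C0) :
    ∃ (p : ℕ) (C : ℝ), 1 ≤ p ∧ 0 < C ∧ ∀ (M : ℕ) (A : ℝ) (f : ℝ → ℝ), 1 ≤ M → 1 ≤ A →
      A ≤ (M : ℝ) ^ Q → Smooth (Q + 2) c0 C0 M A f → ∀ S : Finset ℕ, S ⊆ Ico M (2 * M) → ∀ c : ℤ,
      (Nat.card {q : (Fin p → {m // m ∈ S}) × (Fin p → {m // m ∈ S}) //
        ∑ j, (c + ⌊f ((q.1 j : ℕ) : ℝ)⌋) = ∑ j, (c + ⌊f ((q.2 j : ℕ) : ℝ)⌋)} : ℝ) ≤
          C * (M : ℝ) ^ (2 * p) / A := by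
  obtain ⟨p, C, hp, hC, h⟩ := real_energy Q hQ c0 C0 hc0 hC0
  refine ⟨p, C, hp, hC, ?_⟩
  intro M A f hM hA hAQ hf S hS c
  obtain ⟨s, φ, h1, h2⟩ := hyp_of hc0 (by exact_mod_cast hM) (by linarith) hf
  refine le_trans (Nat.cast_le.2 ?_) (h M A s φ hM hA hAQ h1)
  have hlt : ∀ m : {m // m ∈ S}, (m : ℕ) - M < M := by
    intro m
    have := mem_Ico.1 (hS m.2)
    omega
  have hge : ∀ m : {m // m ∈ S}, M ≤ (m : ℕ) := fun m => (mem_Ico.1 (hS m.2)).1
  let ψ : {m // m ∈ S} → Fin M := fun m => ⟨(m : ℕ) - M, hlt m⟩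
  have hψ : Function.Injective ψ := by
    intro a b hab
    have h3 : (a : ℕ) - M = (b : ℕ) - M := congrArg Fin.val hab
    have h4 := hge a
    have h5 := hge b
    exact Subtype.ext (by omega)
  have hval : ∀ m : {m // m ∈ S}, A * φ 0 ((M : ℝ) + ((ψ m : Fin M) : ℕ)) = f ((m : ℕ) : ℝ) := by
    intro m
    rw [h2]
    congr 1
    have : (M : ℕ) + ((m : ℕ) - M) = m := by have := hge m; omega
    have h6 : ((M : ℝ) + (((m : ℕ) - M : ℕ) : ℝ)) = ((M + ((m : ℕ) - M) : ℕ) : ℝ) := by push_cast; rfl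
    show (M : ℝ) + (((m : ℕ) - M : ℕ) : ℝ) = (m : ℕ)
    rw [h6, this]
  refine Nat.card_le_card_of_injective (fun q => ⟨(fun j => ψ (q.1.1 j), fun j => ψ (q.1.2 j)), ?_⟩) ?_
  · simp only [hval]
    exact floor_close c (fun m : {m // m ∈ S} => f ((m : ℕ) : ℝ)) q.1.1 q.1.2 q.2
  · intro a b hab
    have h3 := congrArg Subtype.val hab
    simp only [Prod.mk.injEq] at h3
    apply Subtype.ext
    apply Prod.ext
    · funext j
      exact hψ (congrFun h3.1 j)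
    · funext j
      exact hψ (congrFun h3.2 j)

/-! ### Powers -/

/-- the product `κ (κ - 1) ⋯ (κ - j + 1)` -/
noncomputable def fall (κ : ℝ) (j : ℕ) : ℝ := ∏ i ∈ range j, (κ - i)

lemma fall_ne (κ : ℝ) (hκ : ∀ n : ℕ, κ ≠ n) (j : ℕ) : fall κ j ≠ 0 := by
  unfold fall
  rw [prod_ne_zero_iff]
  intro i _
  exact sub_ne_zero.2 (hκ i)

/-- the powers with an exponent that is not a nonnegative integer are smooth -/
theorem smooth_rpow (κ : ℝ) (hκ : ∀ n : ℕ, κ ≠ n) (K : ℕ) : ∃ c C : ℝ, 0 < c ∧ 1 ≤ C ∧ ∀ (M α : ℝ), 0 < M → α ≠ 0 →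
    Smooth K c C M (|α| * M ^ κ) (fun t => α * t ^ κ) := by
  -- bounds for the powers of `t / M`
  have h1 : ∀ j : ℕ, ∃ c C : ℝ, 0 < c ∧ ∀ u : ℝ, 1 ≤ u → u ≤ 2 → c ≤ |fall κ j| * u ^ (κ - j) ∧
      |fall κ j| * u ^ (κ - j) ≤ C := by
    intro j
    have hf := abs_pos.2 (fall_ne κ hκ j)
    refine ⟨|fall κ j| * 2 ^ (-|κ - j|), |fall κ j| * 2 ^ |κ - j|, by positivity, fun u hu1 hu2 => ?_⟩
    have hu0 : 0 < u := by linarith
    have e1 : u ^ (κ - j) ≤ 2 ^ |κ - j| := by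
      calc u ^ (κ - j) ≤ u ^ |κ - j| := Real.rpow_le_rpow_of_exponent_le hu1 (le_abs_self _)
        _ ≤ _ := Real.rpow_le_rpow hu0.le hu2 (abs_nonneg _)
    have e2 : (2 : ℝ) ^ (-|κ - j|) ≤ u ^ (κ - j) := by
      calc (2 : ℝ) ^ (-|κ - j|) ≤ u ^ (-|κ - j|) := by
            rw [Real.rpow_neg (by norm_num), Real.rpow_neg hu0.le]
            apply inv_anti₀ (by positivity)
            exact Real.rpow_le_rpow hu0.le hu2 (abs_nonneg _)
        _ ≤ _ := Real.rpow_le_rpow_of_exponent_le hu1 (neg_abs_le _)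
    exact ⟨mul_le_mul_of_nonneg_left e2 hf.le, mul_le_mul_of_nonneg_left e1 hf.le⟩
  choose c C hc hcC using h1
  -- uniform constants
  obtain ⟨c', hc'0, hc'⟩ : ∃ c' : ℝ, 0 < c' ∧ ∀ j ≤ K, c' ≤ c j := by
    refine ⟨(range (K + 1)).inf' ⟨0, by simp⟩ c, ?_, fun j hj => inf'_le _ (mem_range.2 (by omega))⟩
    rw [lt_inf'_iff]
    exact fun j _ => hc j
  obtain ⟨C', hC'1, hC'⟩ : ∃ C' : ℝ, 1 ≤ C' ∧ ∀ j ≤ K, C j ≤ C' := by
    refine ⟨max 1 ((range (K + 1)).sup' ⟨0, by simp⟩ C), le_max_left _ _, fun j hj => ?_⟩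
    exact (le_sup' C (mem_range.2 (by omega : j < K + 1))).trans (le_max_right _ _)
  refine ⟨c', C', hc'0, hC'1, fun M α hM hα => ?_⟩
  refine ⟨fun j t => α * (fall κ j * t ^ (κ - j)), ?_, ?_, ?_⟩
  · funext t
    simp [fall]
  · intro j _ t ht
    have ht0 : 0 < t := by linarith [ht.1]
    have h2 := (Real.hasDerivAt_rpow_const (x := t) (p := κ - j) (Or.inl ht0.ne')).const_mul (fall κ j)
    have h3 := h2.const_mul α
    refine h3.congr_deriv ?_
    have e1 : fall κ (j + 1) = fall κ j * (κ - j) := by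
      unfold fall
      rw [prod_range_succ]
    simp only
    rw [e1]
    push_cast
    rw [show κ - (j + 1) = κ - j - 1 by ring]
    ring
  · intro j _ hjK t ht
    have ht0 : 0 < t := by linarith [ht.1]
    have hu1 : 1 ≤ t / M := by rw [le_div_iff₀ hM]; linarith [ht.1]
    have hu2 : t / M ≤ 2 := by rw [div_le_iff₀ hM]; linarith [ht.2]
    obtain ⟨h4, h5⟩ := hcC j (t / M) hu1 hu2
    have e1 : |α * (fall κ j * t ^ (κ - j))| * M ^ j = |α| * M ^ κ * (|fall κ j| * (t / M) ^ (κ - j)) := by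
      rw [abs_mul, abs_mul, abs_of_pos (Real.rpow_pos_of_pos ht0 _), Real.div_rpow ht0.le hM.le, Real.rpow_sub hM,
        Real.rpow_natCast]
      have : M ^ κ ≠ 0 := (Real.rpow_pos_of_pos hM _).ne'
      have : (M : ℝ) ^ j ≠ 0 := by positivity
      field_simp
    rw [e1]
    have h6 : 0 ≤ |α| * M ^ κ := by positivity
    constructor
    · calc c' * (|α| * M ^ κ) = |α| * M ^ κ * c' := by ring
        _ ≤ _ := mul_le_mul_of_nonneg_left ((hc' j hjK).trans h4) h6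
    · calc _ ≤ |α| * M ^ κ * C' := mul_le_mul_of_nonneg_left (h5.trans (hC' j hjK)) h6
        _ = _ := by ring

/-- the logarithm is smooth -/
theorem smooth_log (K : ℕ) : ∃ c C : ℝ, 0 < c ∧ 1 ≤ C ∧ ∀ (M α : ℝ), 0 < M → α ≠ 0 →
    Smooth K c C M |α| (fun t => α * Real.log t) := by
  refine ⟨1 / 2 ^ K, K.factorial, by positivity, by exact_mod_cast Nat.one_le_iff_ne_zero.2 K.factorial_ne_zero,
    fun M α hM hα => ?_⟩
  refine ⟨fun j t => if j = 0 then α * Real.log t else α * ((-1) ^ (j - 1) * ((j - 1).factorial : ℝ) / t ^ j), ?_, ?_, ?_⟩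
  · funext t
    simp
  · intro j _ t ht
    have ht0 : 0 < t := by linarith [ht.1]
    rcases Nat.eq_zero_or_pos j with rfl | hj
    · simp only [if_true, zero_add, one_ne_zero, if_false, Nat.sub_self, pow_zero, Nat.factorial_zero, Nat.cast_one, pow_one]
      have := (Real.hasDerivAt_log ht0.ne').const_mul α
      refine this.congr_deriv ?_
      ring
    · obtain ⟨i, rfl⟩ : ∃ i, j = i + 1 := ⟨j - 1, by omega⟩
      simp only [Nat.succ_ne_zero, if_false, Nat.add_sub_cancel]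
      have h2 : HasDerivAt (fun y : ℝ => (y ^ (i + 1))⁻¹) (-(((i + 1 : ℕ) : ℝ) * t ^ i) / (t ^ (i + 1)) ^ 2) t := by
        have := (hasDerivAt_pow (i + 1) t).inv (pow_ne_zero _ ht0.ne')
        simp only [Nat.add_sub_cancel] at this
        exact this
      have h3 := (h2.const_mul ((-1) ^ i * (i.factorial : ℝ))).const_mul α
      refine h3.congr_deriv ?_
      rw [Nat.factorial_succ]
      push_cast
      field_simp
      ring
  · intro j hj hjK t ht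
    have ht0 : 0 < t := by linarith [ht.1]
    have hj0 : j ≠ 0 := by omega
    simp only [hj0, if_false]
    rw [abs_mul, abs_div, abs_mul, abs_pow, abs_neg, abs_one, one_pow, one_mul, Nat.abs_cast, abs_of_pos (by positivity : 0 < t ^ j)]
    have h1 : (1 : ℝ) ≤ ((j - 1).factorial : ℝ) := by exact_mod_cast Nat.one_le_iff_ne_zero.2 (j - 1).factorial_ne_zero
    have h2 : ((j - 1).factorial : ℝ) ≤ K.factorial := by exact_mod_cast Nat.factorial_le (by omega)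
    have h3 : t ^ j ≤ 2 ^ K * M ^ j := by
      calc t ^ j ≤ (2 * M) ^ j := pow_le_pow_left₀ ht0.le ht.2 _
        _ = 2 ^ j * M ^ j := mul_pow _ _ _
        _ ≤ _ := by
          apply mul_le_mul_of_nonneg_right _ (by positivity)
          exact pow_le_pow_right₀ (by norm_num) hjK
    have h4 : M ^ j ≤ t ^ j := pow_le_pow_left₀ hM.le ht.1 _
    have hα0 : 0 < |α| := abs_pos.2 hα
    have htj : 0 < t ^ j := by positivity
    constructor
    · rw [mul_comm, mul_assoc]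
      apply mul_le_mul_of_nonneg_left _ hα0.le
      rw [div_mul_eq_mul_div, div_le_div_iff₀ (by positivity) htj]
      calc 1 * t ^ j ≤ 2 ^ K * M ^ j := by rw [one_mul]; exact h3
        _ = 1 * M ^ j * 2 ^ K := by ring
        _ ≤ _ := by gcongr
    · rw [mul_assoc, mul_comm (K.factorial : ℝ)]
      apply mul_le_mul_of_nonneg_left _ hα0.le
      rw [div_mul_eq_mul_div, div_le_iff₀ htj]
      gcongr

end Pool.Agent.W5h23.SF
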