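import Mathlib

/-!
The additive energy of convex sequences (Konyagin, Garaev): elementary proof with a weighted pigeonhole argument.
-/

set_option autoImplicit false

namespace Pool.Agent.W5h23.Conv

open Finset

section pairs

variable {β α : Type*} [DecidableEq α]

/-- the pairs of elements of `X` with the same value of `f` -/
def pairs (X : Finset β) (f : β → α) : Finset (β × β) := (X ×ˢ X).filter (fun q => f q.1 = f q.2)

lemma mem_pairs (X : Finset β) (f : β → α) (q : β × β) : q ∈ pairs X f ↔ q.1 ∈ X ∧ q.2 ∈ X ∧ f q.1 = f q.2 := by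
  unfold pairs
  rw [mem_filter, mem_product]
  tauto

lemma pairs_card (X : Finset β) (f : β → α) (S : Finset α) (hS : ∀ x ∈ X, f x ∈ S) :
    (pairs X f).card = ∑ s ∈ S, (X.filter (fun x => f x = s)).card ^ 2 := by
  have h1 : (pairs X f).card = ∑ s ∈ S, ((pairs X f).filter (fun q => f q.1 = s)).card := by
    apply card_eq_sum_card_fiberwise
    intro q hq
    have hq' := (mem_pairs X f q).1 (mem_coe.1 hq)
    exact mem_coe.2 (hS q.1 hq'.1)
  rw [h1]
  apply sum_congr rfl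
  intro s _
  rw [sq, ← card_product]
  congr 1
  ext q
  rw [mem_filter, mem_pairs, mem_product, mem_filter, mem_filter]
  constructor
  · rintro ⟨⟨h1, h2, h3⟩, h4⟩
    exact ⟨⟨h1, h4⟩, h2, by rw [← h3]; exact h4⟩
  · rintro ⟨⟨h1, h2⟩, h3, h4⟩
    exact ⟨⟨h1, h3, by rw [h2, h4]⟩, h2⟩

lemma pairs_cs (X : Finset β) (f : β → α) (g : β → ℕ) (m : ℕ) (hg : ∀ x ∈ X, g x < m) :
    (pairs X f).card ≤ m * (pairs X (fun x => (f x, g x))).card := by
  rw [pairs_card X f (X.image f) (fun x hx => mem_image_of_mem f hx),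
    pairs_card X (fun x => (f x, g x)) ((X.image f) ×ˢ range m)
      (fun x hx => mem_product.2 ⟨mem_image_of_mem f hx, mem_range.2 (hg x hx)⟩), sum_product, mul_sum]
  apply sum_le_sum
  intro s _
  have h1 : (X.filter (fun x => f x = s)).card = ∑ k ∈ range m, (X.filter (fun x => (f x, g x) = (s, k))).card := by
    have h2 : (X.filter (fun x => f x = s)).card =
        ∑ k ∈ range m, ((X.filter (fun x => f x = s)).filter (fun x => g x = k)).card := by
      apply card_eq_sum_card_fiberwise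
      intro x hx
      have hx' := mem_filter.1 (mem_coe.1 hx)
      exact mem_coe.2 (mem_range.2 (hg x hx'.1))
    rw [h2]
    apply sum_congr rfl
    intro k _
    rw [filter_filter]
    congr 1
    ext x
    rw [mem_filter, mem_filter, Prod.mk.injEq]
  rw [h1]
  have h3 := sq_sum_le_card_mul_sum_sq (s := range m) (f := fun k => (X.filter (fun x => (f x, g x) = (s, k))).card)
  rw [card_range] at h3
  exact h3

end pairs

section fib

variable {T : Type*}

/-- the number of the elements of smaller value -/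
def rk (Y : Finset T) (σ : T → ℤ) (x : T) : ℕ := (Y.filter (fun y => σ y < σ x)).card

/-- the cell of an element -/
def cell (Y : Finset T) (σ : T → ℤ) (K : ℕ) (x : T) : ℕ := K * rk Y σ x / Y.card

lemma rk_mono (Y : Finset T) (σ : T → ℤ) (x x' : T) (h : σ x ≤ σ x') : rk Y σ x ≤ rk Y σ x' := by
  apply card_le_card
  intro y hy
  rw [mem_filter] at hy ⊢
  exact ⟨hy.1, lt_of_lt_of_le hy.2 h⟩

lemma rk_lt (Y : Finset T) (σ : T → ℤ) (x : T) (hx : x ∈ Y) : rk Y σ x < Y.card := by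
  apply card_lt_card
  rw [ssubset_iff_of_subset (filter_subset _ _)]
  refine ⟨x, hx, ?_⟩
  rw [mem_filter]
  rintro ⟨_, h⟩
  exact lt_irrefl _ h

lemma cell_lt (Y : Finset T) (σ : T → ℤ) (K : ℕ) (hK : 1 ≤ K) (x : T) (hx : x ∈ Y) : cell Y σ K x < K := by
  unfold cell
  have h1 := rk_lt Y σ x hx
  rw [Nat.div_lt_iff_lt_mul (by omega)]
  exact Nat.mul_lt_mul_of_pos_left h1 hK

lemma fib (Y : Finset T) (σ : T → ℤ) (K : ℕ) (x' : T) (hx' : x' ∈ Y) :
    K * (Y.filter (fun x => σ x < σ x' ∧ cell Y σ K x = cell Y σ K x')).card ≤ Y.card := by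
  classical
  have hW : 0 < Y.card := card_pos.2 ⟨x', hx'⟩
  rcases (Y.filter (fun x => σ x < σ x' ∧ cell Y σ K x = cell Y σ K x')).eq_empty_or_nonempty with h | h
  · rw [h, card_empty, mul_zero]
    exact Nat.zero_le _
  · obtain ⟨x0, hx0, hmin⟩ := exists_min_image _ σ h
    rw [mem_filter] at hx0
    obtain ⟨_, h1, h2⟩ := hx0
    have h3 : rk Y σ x0 + (Y.filter (fun x => σ x < σ x' ∧ cell Y σ K x = cell Y σ K x')).card ≤ rk Y σ x' := by
      unfold rk
      rw [← card_union_of_disjoint]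
      · apply card_le_card
        intro y hy
        rw [mem_union, mem_filter, mem_filter] at hy
        rw [mem_filter]
        rcases hy with ⟨hy1, hy2⟩ | ⟨hy1, hy2, _⟩
        · exact ⟨hy1, hy2.trans h1⟩
        · exact ⟨hy1, hy2⟩
      · rw [disjoint_left]
        intro y hy hy'
        rw [mem_filter] at hy
        exact absurd (hmin y hy') (not_le.2 hy.2)
    unfold cell at h2
    have h4 : K * rk Y σ x' < (K * rk Y σ x' / Y.card + 1) * Y.card := by
      have := Nat.lt_div_mul_add hW (a := K * rk Y σ x')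
      linarith
    have h5 : K * rk Y σ x0 / Y.card * Y.card ≤ K * rk Y σ x0 := Nat.div_mul_le_self _ _
    rw [h2] at h5
    have h6 := Nat.mul_le_mul_left K h3
    rw [mul_add] at h6
    have h7 : (K * rk Y σ x' / Y.card + 1) * Y.card = K * rk Y σ x' / Y.card * Y.card + Y.card := by ring
    omega

lemma fib_sum (Y : Finset T) (σ : T → ℤ) (K : ℕ) :
    K * ((Y ×ˢ Y).filter (fun q => σ q.1 ≠ σ q.2 ∧ cell Y σ K q.1 = cell Y σ K q.2)).card ≤ 2 * Y.card ^ 2 := by
  classical
  have h1 : ((Y ×ˢ Y).filter (fun q => σ q.1 ≠ σ q.2 ∧ cell Y σ K q.1 = cell Y σ K q.2)).card ≤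
      ((Y ×ˢ Y).filter (fun q => σ q.1 < σ q.2 ∧ cell Y σ K q.1 = cell Y σ K q.2)).card +
      ((Y ×ˢ Y).filter (fun q => σ q.2 < σ q.1 ∧ cell Y σ K q.2 = cell Y σ K q.1)).card := by
    refine le_trans (card_le_card ?_) (card_union_le _ _)
    intro q hq
    rw [mem_filter] at hq
    rw [mem_union, mem_filter, mem_filter]
    rcases lt_or_gt_of_ne hq.2.1 with h | h
    · exact Or.inl ⟨hq.1, h, hq.2.2⟩
    · exact Or.inr ⟨hq.1, h, hq.2.2.symm⟩
  have h2 : K * ((Y ×ˢ Y).filter (fun q => σ q.1 < σ q.2 ∧ cell Y σ K q.1 = cell Y σ K q.2)).card ≤ Y.card ^ 2 := by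
    rw [card_filter, sum_product_right, mul_sum]
    calc ∑ y ∈ Y, K * ∑ x ∈ Y, (if σ x < σ y ∧ cell Y σ K x = cell Y σ K y then 1 else 0) ≤ ∑ y ∈ Y, Y.card := by
          apply sum_le_sum
          intro y hy
          rw [← card_filter]
          exact fib Y σ K y hy
      _ = _ := by rw [sum_const, smul_eq_mul, sq]
  have h3 : K * ((Y ×ˢ Y).filter (fun q => σ q.2 < σ q.1 ∧ cell Y σ K q.2 = cell Y σ K q.1)).card ≤ Y.card ^ 2 := by
    rw [card_filter, sum_product, mul_sum]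
    calc ∑ y ∈ Y, K * ∑ x ∈ Y, (if σ x < σ y ∧ cell Y σ K x = cell Y σ K y then 1 else 0) ≤ ∑ y ∈ Y, Y.card := by
          apply sum_le_sum
          intro y hy
          rw [← card_filter]
          exact fib Y σ K y hy
      _ = _ := by rw [sum_const, smul_eq_mul, sq]
  calc _ ≤ K * (_ + _) := Nat.mul_le_mul_left K h1
    _ ≤ _ := by rw [mul_add]; omega

end fib

lemma close_idx (n K i i' : ℕ) (hn : 0 < n) (hK : 1 ≤ K) (hne : i ≠ i') (h : K * i / n = K * i' / n) :
    ((i' : ℤ) - i) ∈ (Icc (-((n / K : ℕ) : ℤ)) ((n / K : ℕ) : ℤ)).erase 0 := by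
  rw [mem_erase, mem_Icc]
  have h1 : K * i < (K * i / n + 1) * n := by
    have := Nat.lt_div_mul_add hn (a := K * i)
    linarith
  have h2 : K * i' < (K * i' / n + 1) * n := by
    have := Nat.lt_div_mul_add hn (a := K * i')
    linarith
  have h3 : K * i / n * n ≤ K * i := Nat.div_mul_le_self _ _
  have h4 : K * i' / n * n ≤ K * i' := Nat.div_mul_le_self _ _
  rw [h] at h1 h3
  have h5 : (K * i' / n + 1) * n = K * i' / n * n + n := by ring
  have h6 : K * i' ≤ K * i + n := by omega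
  have h7 : K * i ≤ K * i' + n := by omega
  refine ⟨by omega, ?_, ?_⟩
  · have : i - i' ≤ n / K := by
      rw [Nat.le_div_iff_mul_le hK, Nat.sub_mul]
      have e1 : i * K = K * i := mul_comm _ _
      have e2 : i' * K = K * i' := mul_comm _ _
      omega
    omega
  · have : i' - i ≤ n / K := by
      rw [Nat.le_div_iff_mul_le hK, Nat.sub_mul]
      have e1 : i * K = K * i := mul_comm _ _
      have e2 : i' * K = K * i' := mul_comm _ _
      omega
    omega

/-- the main inequality, for an increasing piece of the sequence -/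
lemma step {T : Type*} (I : Finset ℕ) (n : ℕ) (hI : I ⊆ range n) (a : ℕ → ℤ) (hmono : ∀ i ∈ I, ∀ j ∈ I, i < j → a i < a j)
    (hinj : ∀ i ∈ I, ∀ i' ∈ I, ∀ j ∈ I, ∀ j' ∈ I, i < i' → (i' : ℤ) - i = j' - j → a i' - a i = a j' - a j → i = j)
    (Y : Finset T) (σ : T → ℤ) (K : ℕ) (hK : 1 ≤ K) :
    K ^ 2 * (pairs (I ×ˢ Y) (fun p => a p.1 + σ p.2)).card ≤
      2 * K * (K ^ 2 * (I.card * (pairs Y σ).card) + 4 * n * Y.card ^ 2) := by
  classical
  rcases Nat.eq_zero_or_pos n with h0 | hn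
  · subst h0
    rw [range_zero, subset_empty] at hI
    subst hI
    have : pairs ((∅ : Finset ℕ) ×ˢ Y) (fun p => a p.1 + σ p.2) = ∅ := by
      unfold pairs
      simp
    rw [this]
    simp
  have key := pairs_cs (I ×ˢ Y) (fun p => a p.1 + σ p.2) (fun p => K * p.1 / n + (K - cell Y σ K p.2)) (2 * K) (by
    intro p hp
    rw [mem_product] at hp
    have h1 : K * p.1 / n < K := by
      rw [Nat.div_lt_iff_lt_mul hn]
      exact Nat.mul_lt_mul_of_pos_left (mem_range.1 (hI hp.1)) hK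
    show K * p.1 / n + (K - cell Y σ K p.2) < 2 * K
    omega)
  obtain ⟨G, hG⟩ : ∃ G : Finset (T × T), G = (Y ×ˢ Y).filter (fun q => σ q.1 ≠ σ q.2 ∧ cell Y σ K q.1 = cell Y σ K q.2) := ⟨_, rfl⟩
  have hGc := fib_sum Y σ K
  rw [← hG] at hGc
  -- the diagonal and the other pairs
  obtain ⟨P, hP⟩ : ∃ P, P = pairs (I ×ˢ Y) (fun p => (a p.1 + σ p.2, K * p.1 / n + (K - cell Y σ K p.2))) := ⟨_, rfl⟩
  rw [← hP] at key
  have hblock : ∀ q ∈ P, K * q.1.1 / n = K * q.2.1 / n ∧ cell Y σ K q.1.2 = cell Y σ K q.2.2 := by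
    intro q hq
    rw [hP, mem_pairs] at hq
    obtain ⟨hq1, hq2, hq3⟩ := hq
    rw [mem_product] at hq1 hq2
    rw [Prod.mk.injEq] at hq3
    obtain ⟨e1, e2⟩ := hq3
    have c1 := cell_lt Y σ K hK q.1.2 hq1.2
    have c2 := cell_lt Y σ K hK q.2.2 hq2.2
    rcases lt_trichotomy q.1.1 q.2.1 with h | h | h
    · have h1 := hmono _ hq1.1 _ hq2.1 h
      have h2 : rk Y σ q.2.2 ≤ rk Y σ q.1.2 := rk_mono Y σ _ _ (by omega)
      have h3 : cell Y σ K q.2.2 ≤ cell Y σ K q.1.2 := Nat.div_le_div_right (Nat.mul_le_mul_left K h2)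
      have h4 : K * q.1.1 / n ≤ K * q.2.1 / n := Nat.div_le_div_right (Nat.mul_le_mul_left K h.le)
      omega
    · rw [h] at e1 e2 ⊢
      refine ⟨rfl, ?_⟩
      omega
    · have h1 := hmono _ hq2.1 _ hq1.1 h
      have h2 : rk Y σ q.1.2 ≤ rk Y σ q.2.2 := rk_mono Y σ _ _ (by omega)
      have h3 : cell Y σ K q.1.2 ≤ cell Y σ K q.2.2 := Nat.div_le_div_right (Nat.mul_le_mul_left K h2)
      have h4 : K * q.2.1 / n ≤ K * q.1.1 / n := Nat.div_le_div_right (Nat.mul_le_mul_left K h.le)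
      omega
  have hsplit : P.card ≤ (P.filter (fun q => q.1.1 = q.2.1)).card + (P.filter (fun q => q.1.1 ≠ q.2.1)).card := by
    rw [card_filter_add_card_filter_not]
  have hdiag : (P.filter (fun q => q.1.1 = q.2.1)).card ≤ I.card * (pairs Y σ).card := by
    rw [← card_product]
    apply card_le_card_of_injOn (fun q => (q.1.1, (q.1.2, q.2.2)))
    · intro q hq
      rw [mem_coe, mem_filter] at hq
      obtain ⟨hq1, hq2⟩ := hq
      rw [hP, mem_pairs, mem_product, mem_product, Prod.mk.injEq] at hq1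
      obtain ⟨g1, g2, g3, _⟩ := hq1
      rw [mem_coe, mem_product, mem_pairs]
      refine ⟨g1.1, g1.2, g2.2, ?_⟩
      show σ q.1.2 = σ q.2.2
      rw [hq2] at g3
      omega
    · intro q hq q' hq' he
      rw [mem_coe, mem_filter] at hq hq'
      simp only [Prod.mk.injEq] at he
      obtain ⟨e1, e2, e3⟩ := he
      have e4 : q.2.1 = q'.2.1 := by rw [← hq.2, ← hq'.2, e1]
      exact Prod.ext (Prod.ext e1 e2) (Prod.ext e4 e3)
  have hoff : (P.filter (fun q => q.1.1 ≠ q.2.1)).card ≤ G.card * (2 * (n / K)) := by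
    have hJ : ((Icc (-((n / K : ℕ) : ℤ)) ((n / K : ℕ) : ℤ)).erase 0).card = 2 * (n / K) := by
      generalize n / K = m
      rw [card_erase_of_mem (by rw [mem_Icc]; omega), Int.card_Icc]
      omega
    rw [← hJ, ← card_product]
    apply card_le_card_of_injOn (fun q => ((q.1.2, q.2.2), (q.2.1 : ℤ) - q.1.1))
    · intro q hq
      rw [mem_coe, mem_filter] at hq
      obtain ⟨hq1, hq2⟩ := hq
      obtain ⟨b1, b2⟩ := hblock q hq1
      rw [hP, mem_pairs, mem_product, mem_product, Prod.mk.injEq] at hq1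
      obtain ⟨g1, g2, g3, _⟩ := hq1
      rw [mem_coe, mem_product]
      refine ⟨?_, close_idx n K q.1.1 q.2.1 hn hK hq2 b1⟩
      show (q.1.2, q.2.2) ∈ G
      rw [hG, mem_filter, mem_product]
      refine ⟨⟨g1.2, g2.2⟩, ?_, b2⟩
      intro he
      rcases lt_or_gt_of_ne hq2 with h | h
      · have := hmono _ g1.1 _ g2.1 h
        simp only at he
        omega
      · have := hmono _ g2.1 _ g1.1 h
        simp only at he
        omega
    · intro q hq q' hq' he
      rw [mem_coe, mem_filter] at hq hq'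
      obtain ⟨hq1, hq2⟩ := hq
      obtain ⟨hq1', hq2'⟩ := hq'
      rw [hP, mem_pairs, mem_product, mem_product, Prod.mk.injEq] at hq1 hq1'
      obtain ⟨g1, g2, g3, _⟩ := hq1
      obtain ⟨g1', g2', g3', _⟩ := hq1'
      simp only [Prod.mk.injEq] at he
      obtain ⟨⟨e1, e2⟩, e3⟩ := he
      rw [e1, e2] at g3
      have e4 : q.1.1 = q'.1.1 ∧ q.2.1 = q'.2.1 := by
        rcases lt_or_gt_of_ne hq2 with h | h
        · have := hinj _ g1.1 _ g2.1 _ g1'.1 _ g2'.1 h e3 (by omega)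
          exact ⟨this, by omega⟩
        · have := hinj _ g2.1 _ g1.1 _ g2'.1 _ g1'.1 h (by omega) (by omega)
          exact ⟨by omega, this⟩
      exact Prod.ext (Prod.ext e4.1 e1) (Prod.ext e4.2 e2)
  have hfin : K ^ 2 * P.card ≤ K ^ 2 * (I.card * (pairs Y σ).card) + 4 * n * Y.card ^ 2 := by
    have h1 : K * (n / K) ≤ n := Nat.mul_div_le n K
    have h2 : K ^ 2 * (G.card * (2 * (n / K))) ≤ 4 * n * Y.card ^ 2 := by
      calc K ^ 2 * (G.card * (2 * (n / K))) = 2 * (K * G.card) * (K * (n / K)) := by ring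
        _ ≤ 2 * (2 * Y.card ^ 2) * n := by
            apply Nat.mul_le_mul _ h1
            exact Nat.mul_le_mul_left 2 hGc
        _ = _ := by ring
    calc K ^ 2 * P.card ≤ K ^ 2 * (I.card * (pairs Y σ).card + G.card * (2 * (n / K))) :=
          Nat.mul_le_mul_left _ (hsplit.trans (add_le_add hdiag hoff))
      _ ≤ _ := by rw [mul_add]; omega
  calc K ^ 2 * (pairs (I ×ˢ Y) (fun p => a p.1 + σ p.2)).card ≤ K ^ 2 * (2 * K * P.card) := Nat.mul_le_mul_left _ key
    _ = 2 * K * (K ^ 2 * P.card) := by ring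
    _ ≤ _ := Nat.mul_le_mul_left _ hfin

lemma pairs_le_sq {β α : Type*} [DecidableEq α] (Y : Finset β) (σ : β → α) : (pairs Y σ).card ≤ Y.card ^ 2 := by
  unfold pairs
  refine (card_filter_le _ _).trans (le_of_eq ?_)
  rw [card_product, sq]

lemma card_le_pairs {β α : Type*} [DecidableEq α] (Y : Finset β) (σ : β → α) : Y.card ≤ (pairs Y σ).card := by
  apply card_le_card_of_injOn (fun y => (y, y))
  · intro y hy
    rw [mem_coe, mem_pairs]
    exact ⟨hy, hy, rfl⟩
  · intro y _ y' _ h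
    exact (Prod.mk.inj h).1

/-- the inequality with the best number of cells -/
lemma step_real {T : Type*} (I : Finset ℕ) (n : ℕ) (hI : I ⊆ range n) (a : ℕ → ℤ) (hmono : ∀ i ∈ I, ∀ j ∈ I, i < j → a i < a j)
    (hinj : ∀ i ∈ I, ∀ i' ∈ I, ∀ j ∈ I, ∀ j' ∈ I, i < i' → (i' : ℤ) - i = j' - j → a i' - a i = a j' - a j → i = j)
    (Y : Finset T) (σ : T → ℤ) :
    ((pairs (I ×ˢ Y) (fun p => a p.1 + σ p.2)).card : ℝ) ≤ 12 * n * Y.card * Real.sqrt (pairs Y σ).card := by
  rcases Y.eq_empty_or_nonempty with hY | hY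
  · subst hY
    have : pairs (I ×ˢ (∅ : Finset T)) (fun p => a p.1 + σ p.2) = ∅ := by
      unfold pairs
      simp
    rw [this]
    simp
  have hW : 1 ≤ Y.card := card_pos.2 hY
  have hWr : (1 : ℝ) ≤ Y.card := by exact_mod_cast hW
  have h1 : (Y.card : ℝ) ≤ (pairs Y σ).card := by exact_mod_cast card_le_pairs Y σ
  have h2 : ((pairs Y σ).card : ℝ) ≤ (Y.card : ℝ) ^ 2 := by exact_mod_cast pairs_le_sq Y σ
  obtain ⟨W, hWdef⟩ : ∃ W : ℝ, W = Y.card := ⟨_, rfl⟩
  obtain ⟨E, hE⟩ : ∃ E : ℝ, E = (pairs Y σ).card := ⟨_, rfl⟩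
  rw [← hWdef] at hWr h1 h2
  rw [← hE] at h1 h2
  have hE0 : 0 < E := by linarith
  have hs0 : 0 < Real.sqrt E := Real.sqrt_pos.2 hE0
  have hss : Real.sqrt E * Real.sqrt E = E := Real.mul_self_sqrt hE0.le
  have hsW : Real.sqrt E ≤ W := by
    rw [← Real.sqrt_sq (by linarith : (0 : ℝ) ≤ W)]
    exact Real.sqrt_le_sqrt h2
  obtain ⟨x, hx⟩ : ∃ x : ℝ, x = W / Real.sqrt E := ⟨_, rfl⟩
  have hx1 : 1 ≤ x := by
    rw [hx, le_div_iff₀ hs0]
    linarith
  obtain ⟨K, hK⟩ : ∃ K : ℕ, K = ⌈x⌉₊ := ⟨_, rfl⟩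
  have hKx : x ≤ K := by rw [hK]; exact Nat.le_ceil x
  have hKx2 : (K : ℝ) ≤ 2 * x := by
    have := (Nat.ceil_lt_add_one (by linarith : (0 : ℝ) ≤ x)).le
    rw [← hK] at this
    linarith
  have hK1 : 1 ≤ K := by
    have : (1 : ℝ) ≤ K := hx1.trans hKx
    exact_mod_cast this
  have key := step I n hI a hmono hinj Y σ K hK1
  have hIn : I.card ≤ n := by
    have := card_le_card hI
    rwa [card_range] at this
  have key2 : (K : ℝ) ^ 2 * (pairs (I ×ˢ Y) (fun p => a p.1 + σ p.2)).card ≤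
      2 * K * ((K : ℝ) ^ 2 * (I.card * E) + 4 * n * W ^ 2) := by
    rw [hE, hWdef]
    exact_mod_cast key
  rw [← hWdef, ← hE]
  have hKr : (0 : ℝ) < K := by linarith
  have hInr : (I.card : ℝ) ≤ n := by exact_mod_cast hIn
  have hn0 : (0 : ℝ) ≤ n := Nat.cast_nonneg n
  have hWx : W = x * Real.sqrt E := by
    rw [hx]
    field_simp
  have e1 : 2 * K * ((K : ℝ) ^ 2 * (I.card * E) + 4 * n * W ^ 2) ≤ (K : ℝ) ^ 2 * (12 * n * W * Real.sqrt E) := by
    have e2 : (I.card : ℝ) * E ≤ n * E := mul_le_mul_of_nonneg_right hInr hE0.le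
    have e3 : (K : ℝ) * E ≤ 2 * (W * Real.sqrt E) := by
      calc (K : ℝ) * E ≤ 2 * x * E := mul_le_mul_of_nonneg_right hKx2 hE0.le
        _ = 2 * (x * Real.sqrt E * Real.sqrt E) := by rw [mul_assoc x, hss]; ring
        _ = _ := by rw [← hWx]
    have e4 : W ^ 2 ≤ K * (W * Real.sqrt E) := by
      calc W ^ 2 = x * (W * Real.sqrt E) := by rw [sq]; nth_rewrite 1 [hWx]; ring
        _ ≤ _ := mul_le_mul_of_nonneg_right hKx (by positivity)
    have e5 : 2 * K * ((K : ℝ) ^ 2 * (I.card * E)) ≤ (K : ℝ) ^ 2 * (4 * n * W * Real.sqrt E) := by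
      calc 2 * K * ((K : ℝ) ^ 2 * (I.card * E)) ≤ 2 * K * ((K : ℝ) ^ 2 * (n * E)) := by gcongr
        _ = 2 * (K : ℝ) ^ 2 * n * (K * E) := by ring
        _ ≤ 2 * (K : ℝ) ^ 2 * n * (2 * (W * Real.sqrt E)) := mul_le_mul_of_nonneg_left e3 (by positivity)
        _ = _ := by ring
    have e6 : 2 * K * (4 * n * W ^ 2) ≤ (K : ℝ) ^ 2 * (8 * n * W * Real.sqrt E) := by
      calc 2 * K * (4 * n * W ^ 2) = 8 * n * K * W ^ 2 := by ring
        _ ≤ 8 * n * K * (K * (W * Real.sqrt E)) := mul_le_mul_of_nonneg_left e4 (by positivity)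
        _ = _ := by ring
    calc _ = 2 * K * ((K : ℝ) ^ 2 * (I.card * E)) + 2 * K * (4 * n * W ^ 2) := by ring
      _ ≤ (K : ℝ) ^ 2 * (4 * n * W * Real.sqrt E) + (K : ℝ) ^ 2 * (8 * n * W * Real.sqrt E) := add_le_add e5 e6
      _ = _ := by ring
  exact le_of_mul_le_mul_left (key2.trans e1) (by positivity)

lemma pairs_neg {T : Type*} (I : Finset ℕ) (a : ℕ → ℤ) (Y : Finset T) (σ : T → ℤ) :
    pairs (I ×ˢ Y) (fun p => a p.1 + σ p.2) = pairs (I ×ˢ Y) (fun p => (-a p.1) + (-σ p.2)) := by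
  ext q
  rw [mem_pairs, mem_pairs]
  constructor
  · rintro ⟨h1, h2, h3⟩
    exact ⟨h1, h2, by linarith⟩
  · rintro ⟨h1, h2, h3⟩
    exact ⟨h1, h2, by linarith⟩

/-- the inequality for a convex sequence -/
lemma conv_step {T : Type*} (n : ℕ) (a : ℕ → ℤ) (hconv : ∀ i, i + 2 < n → a (i + 1) - a i < a (i + 2) - a (i + 1))
    (Y : Finset T) (σ : T → ℤ) :
    ((pairs (range n ×ˢ Y) (fun p => a p.1 + σ p.2)).card : ℝ) ≤ 48 * n * Y.card * Real.sqrt (pairs Y σ).card := by
  classical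
  -- the differences increase
  have hd : ∀ l i : ℕ, 0 < l → i + l + 1 < n → a (i + 1) - a i < a (i + l + 1) - a (i + l) := by
    intro l
    induction l with
    | zero => intro i h; omega
    | succ l ih =>
      intro i _ hi
      rcases Nat.eq_zero_or_pos l with h0 | h0
      · subst h0
        exact hconv i (by omega)
      · refine (ih i h0 (by omega)).trans ?_
        exact hconv (i + l) (by omega)
  have hd2 : ∀ l i m : ℕ, 0 < l → 0 < m → i + m + l < n → a (i + l) - a i < a (i + m + l) - a (i + m) := by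
    intro l
    induction l with
    | zero => intro i m h; omega
    | succ l ih =>
      intro i m _ hm hi
      rcases Nat.eq_zero_or_pos l with h0 | h0
      · subst h0
        exact hd m i hm (by omega)
      · have h1 := ih i m h0 hm (by omega)
        have h2 := hd m (i + l) hm (by omega)
        have e1 : i + l + m + 1 = i + m + (l + 1) := by ring
        have e2 : i + l + m = i + m + l := by ring
        rw [e1, e2] at h2
        have e3 : i + l + 1 = i + (l + 1) := by ring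
        rw [e3] at h2
        linarith
  have hinj0 : ∀ i i' j j' : ℕ, i' < n → j' < n → i < i' → (i' : ℤ) - i = j' - j → a i' - a i = a j' - a j → i = j := by
    intro i i' j j' hi hj hlt h1 h2
    obtain ⟨l, hl, rfl⟩ : ∃ l, 0 < l ∧ i' = i + l := ⟨i' - i, by omega, by omega⟩
    obtain rfl : j' = j + l := by omega
    rcases lt_trichotomy i j with h | h | h
    · obtain ⟨m, hm, rfl⟩ : ∃ m, 0 < m ∧ j = i + m := ⟨j - i, by omega, by omega⟩
      have := hd2 l i m hl hm hj
      omega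
    · exact h
    · obtain ⟨m, hm, rfl⟩ : ∃ m, 0 < m ∧ i = j + m := ⟨i - j, by omega, by omega⟩
      have := hd2 l j m hl hm hi
      omega
  -- the two monotone pieces
  obtain ⟨I1, hI1⟩ : ∃ I1 : Finset ℕ, I1 = (range n).filter (fun i => i = 0 ∨ a i < a (i - 1)) := ⟨_, rfl⟩
  obtain ⟨I2, hI2⟩ : ∃ I2 : Finset ℕ, I2 = (range n).filter (fun i => ¬ (i = 0 ∨ a i < a (i - 1))) := ⟨_, rfl⟩
  have hI1n : I1 ⊆ range n := by rw [hI1]; exact filter_subset _ _
  have hI2n : I2 ⊆ range n := by rw [hI2]; exact filter_subset _ _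
  have hdec : ∀ i ∈ I1, ∀ j ∈ I1, i < j → (fun i => -a i) i < (fun i => -a i) j := by
    intro i _ j hj hij
    show -a i < -a j
    rw [hI1, mem_filter, mem_range] at hj
    obtain ⟨hjn, hj2⟩ := hj
    have hj3 : a j < a (j - 1) := by
      rcases hj2 with h | h
      · omega
      · exact h
    have h1 : ∀ l, l ≤ j - 1 - i → a (j - 1 - l) - a (j - 1) ≥ 0 := by
      intro l
      induction l with
      | zero => intro _; simp
      | succ l ih =>
        intro hl
        have h2 := ih (by omega)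
        have h3 := hd (l + 1) (j - 1 - (l + 1)) (by omega) (by omega)
        have e1 : j - 1 - (l + 1) + 1 = j - 1 - l := by omega
        have e2 : j - 1 - (l + 1) + (l + 1) + 1 = j := by omega
        have e3 : j - 1 - (l + 1) + (l + 1) = j - 1 := by omega
        rw [e1, e2, e3] at h3
        omega
    have h2 := h1 (j - 1 - i) le_rfl
    have e1 : j - 1 - (j - 1 - i) = i := by omega
    rw [e1] at h2
    omega
  have hinc : ∀ i ∈ I2, ∀ j ∈ I2, i < j → a i < a j := by
    intro i hi j hj hij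
    rw [hI2, mem_filter, mem_range] at hi hj
    obtain ⟨hin, hi2⟩ := hi
    push Not at hi2
    obtain ⟨hi3, hi4⟩ := hi2
    have h1 : ∀ l, 0 < l → i + l < n → a i < a (i + l) := by
      intro l
      induction l with
      | zero => intro h; omega
      | succ l ih =>
        intro _ hl
        have h3 := hd (l + 1) (i - 1) (by omega) (by omega)
        have e1 : i - 1 + 1 = i := by omega
        have e2 : i - 1 + (l + 1) + 1 = i + (l + 1) := by omega
        have e3 : i - 1 + (l + 1) = i + l := by omega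
        rw [e1, e2, e3] at h3
        rcases Nat.eq_zero_or_pos l with h0 | h0
        · subst h0
          simp only [Nat.add_zero] at h3
          omega
        · have := ih h0 (by omega)
          omega
    obtain ⟨l, hl, rfl⟩ : ∃ l, 0 < l ∧ j = i + l := ⟨j - i, by omega, by omega⟩
    exact h1 l hl hj.1
  have k1 := step_real I1 n hI1n (fun i => -a i) hdec (by
    intro i hi i' hi' j hj j' hj' hlt h1 h2
    have b1 := mem_range.1 (hI1n hi')
    have b2 := mem_range.1 (hI1n hj')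
    exact hinj0 i i' j j' b1 b2 hlt h1 (by linarith)) Y (fun x => -σ x)
  have k2 := step_real I2 n hI2n a hinc (by
    intro i hi i' hi' j hj j' hj' hlt h1 h2
    have b1 := mem_range.1 (hI2n hi')
    have b2 := mem_range.1 (hI2n hj')
    exact hinj0 i i' j j' b1 b2 hlt h1 h2) Y σ
  rw [← pairs_neg I1 a Y σ] at k1
  have hneg : (pairs Y (fun x => -σ x)).card = (pairs Y σ).card := by
    congr 1
    ext q
    rw [mem_pairs, mem_pairs]
    constructor
    · rintro ⟨h1, h2, h3⟩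
      exact ⟨h1, h2, by linarith⟩
    · rintro ⟨h1, h2, h3⟩
      exact ⟨h1, h2, by linarith⟩
  rw [hneg] at k1
  -- combination
  have key := pairs_cs (range n ×ˢ Y) (fun p => a p.1 + σ p.2) (fun p => if p.1 = 0 ∨ a p.1 < a (p.1 - 1) then 0 else 1) 2 (by
    intro p _
    show (if p.1 = 0 ∨ a p.1 < a (p.1 - 1) then 0 else 1) < 2
    split_ifs <;> norm_num)
  have hsub : pairs (range n ×ˢ Y) (fun p => (a p.1 + σ p.2, if p.1 = 0 ∨ a p.1 < a (p.1 - 1) then 0 else 1)) ⊆
      pairs (I1 ×ˢ Y) (fun p => a p.1 + σ p.2) ∪ pairs (I2 ×ˢ Y) (fun p => a p.1 + σ p.2) := by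
    intro q hq
    rw [mem_pairs, mem_product, mem_product, Prod.mk.injEq] at hq
    obtain ⟨h1, h2, h3, h4⟩ := hq
    rw [mem_union, mem_pairs, mem_pairs, mem_product, mem_product, mem_product, mem_product, hI1, hI2, mem_filter, mem_filter,
      mem_filter, mem_filter]
    by_cases c1 : q.1.1 = 0 ∨ a q.1.1 < a (q.1.1 - 1)
    · by_cases c2 : q.2.1 = 0 ∨ a q.2.1 < a (q.2.1 - 1)
      · exact Or.inl ⟨⟨⟨h1.1, c1⟩, h1.2⟩, ⟨⟨h2.1, c2⟩, h2.2⟩, h3⟩
      · rw [if_pos c1, if_neg c2] at h4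
        omega
    · by_cases c2 : q.2.1 = 0 ∨ a q.2.1 < a (q.2.1 - 1)
      · rw [if_neg c1, if_pos c2] at h4
        omega
      · exact Or.inr ⟨⟨⟨h1.1, c1⟩, h1.2⟩, ⟨⟨h2.1, c2⟩, h2.2⟩, h3⟩
  have h5 := (card_le_card hsub).trans (card_union_le _ _)
  have h6 : ((pairs (range n ×ˢ Y) (fun p => a p.1 + σ p.2)).card : ℝ) ≤
      2 * (((pairs (I1 ×ˢ Y) (fun p => a p.1 + σ p.2)).card : ℝ) + (pairs (I2 ×ˢ Y) (fun p => a p.1 + σ p.2)).card) := by
    have := key.trans (Nat.mul_le_mul_left 2 h5)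
    exact_mod_cast this
  linarith

/-- the pairs of `h`-tuples of elements of the sequence with equal sums -/
def en (n h : ℕ) (a : ℕ → ℤ) : ℕ := (pairs (univ : Finset (Fin h → Fin n)) (fun x => ∑ j, a (x j))).card

lemma en_succ (n h : ℕ) (a : ℕ → ℤ) :
    en n (h + 1) a ≤ (pairs (range n ×ˢ (univ : Finset (Fin h → Fin n))) (fun p => a p.1 + ∑ j, a (p.2 j))).card := by
  unfold en
  apply card_le_card_of_injOn (fun q => (((q.1 0 : ℕ), fun j => q.1 (Fin.succ j)), ((q.2 0 : ℕ), fun j => q.2 (Fin.succ j))))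
  · intro q hq
    rw [mem_coe, mem_pairs] at hq
    rw [mem_coe, mem_pairs, mem_product, mem_product]
    refine ⟨⟨mem_range.2 (q.1 0).2, mem_univ _⟩, ⟨mem_range.2 (q.2 0).2, mem_univ _⟩, ?_⟩
    have h1 := hq.2.2
    rw [Fin.sum_univ_succ, Fin.sum_univ_succ] at h1
    exact h1
  · intro q _ q' _ he
    simp only [Prod.mk.injEq] at he
    obtain ⟨⟨e1, e2⟩, e3, e4⟩ := he
    apply Prod.ext
    · funext j
      refine Fin.cases (Fin.ext e1) (fun j => congrFun e2 j) j
    · funext j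
      refine Fin.cases (Fin.ext e3) (fun j => congrFun e4 j) j

/-- **The additive energy of convex sequences.** -/
theorem en_convex (n : ℕ) (hn : 1 ≤ n) (a : ℕ → ℤ) (hconv : ∀ i, i + 2 < n → a (i + 1) - a i < a (i + 2) - a (i + 1)) (h : ℕ) :
    (en n h a : ℝ) ≤ 2304 * (n : ℝ) ^ (2 * (h : ℝ) - 2 + 2 * (1 / 2) ^ h) := by
  have hn0 : (0 : ℝ) < n := by exact_mod_cast hn
  induction h with
  | zero =>
    have h1 : en n 0 a ≤ 1 := by
      unfold en
      refine (pairs_le_sq _ _).trans ?_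
      simp
    have h2 : (en n 0 a : ℝ) ≤ 1 := by exact_mod_cast h1
    have h3 : 2 * ((0 : ℕ) : ℝ) - 2 + 2 * (1 / 2) ^ 0 = 0 := by norm_num
    rw [h3, Real.rpow_zero]
    linarith
  | succ h ih =>
    have h1 : (en n (h + 1) a : ℝ) ≤ 48 * n * (univ : Finset (Fin h → Fin n)).card *
        Real.sqrt (pairs (univ : Finset (Fin h → Fin n)) (fun x => ∑ j, a (x j))).card :=
      le_trans (by exact_mod_cast en_succ n h a) (conv_step n a hconv univ (fun x : Fin h → Fin n => ∑ j, a (x j)))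
    have h2 : ((univ : Finset (Fin h → Fin n)).card : ℝ) = (n : ℝ) ^ h := by
      rw [card_univ, Fintype.card_fun, Fintype.card_fin, Fintype.card_fin]
      push_cast
      rfl
    rw [h2] at h1
    have h3 : Real.sqrt (pairs (univ : Finset (Fin h → Fin n)) (fun x => ∑ j, a (x j))).card ≤
        48 * (n : ℝ) ^ ((2 * (h : ℝ) - 2 + 2 * (1 / 2) ^ h) / 2) := by
      rw [Real.sqrt_le_left (by positivity)]
      refine le_trans ih (le_of_eq ?_)
      rw [mul_pow, ← Real.rpow_natCast ((n : ℝ) ^ ((2 * (h : ℝ) - 2 + 2 * (1 / 2) ^ h) / 2)) 2, ← Real.rpow_mul hn0.le]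
      norm_num
    calc (en n (h + 1) a : ℝ) ≤ 48 * n * (n : ℝ) ^ h * (48 * (n : ℝ) ^ ((2 * (h : ℝ) - 2 + 2 * (1 / 2) ^ h) / 2)) :=
          h1.trans (mul_le_mul_of_nonneg_left h3 (by positivity))
      _ = 2304 * ((n : ℝ) ^ (1 : ℝ) * (n : ℝ) ^ (h : ℝ) * (n : ℝ) ^ ((2 * (h : ℝ) - 2 + 2 * (1 / 2) ^ h) / 2)) := by
          rw [Real.rpow_one, Real.rpow_natCast]
          ring
      _ = _ := by
          rw [← Real.rpow_add hn0, ← Real.rpow_add hn0]
          congr 2
          push_cast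
          rw [pow_succ]
          ring

end Pool.Agent.W5h23.Conv
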