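import Pool.Agent.TH212.PS.P12

/-!
The main theorem of `Pool.Agent.TH212.PS` with an energy threshold `N ^ κ` whose exponent does not depend on the order of
the energy. Adapted from the starting files `TH212.PS.P3`, `P6`, `P9`, `P12`.
-/

set_option autoImplicit false

namespace Pool.Agent.W5h23.SF.Pow

open Finset Polynomial
open Pool.Agent.H807R2.Dav
open Pool.Agent.TH212.DV
open Pool.Agent.TH212.PS
open Pool.Agent.H373R2.T7 (orth sq_expand majorant_pow parseval_Icc triple fz energy)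
open Pool.Agent.TH212.PL (En enum sum_enum energy_enum moment_energy)

/-- the first moment over a family of shifts of nearly minimal energy, with power saving -/
theorem fam_pow2 (p : ℕ) (κ θ : ℝ) (hκ : 0 < κ) (hθ0 : 0 < θ) (hθ : 16 * ((p : ℝ) + 1) * θ ≤ κ) : ∃ N₀ : ℕ, ∀ N : ℕ, N₀ ≤ N →
    ∀ (ι : Type) [Fintype ι] (v : ι → ℤ), (∀ i, |v i| ≤ N) → (En p v : ℝ) * N ≤ (N : ℝ) ^ (κ / 4) * (Fintype.card ι : ℝ) ^ (2 * p) →
    ∀ A H : ℕ, A ≤ 2 * N → H ≤ 2 * N → ∀ G f : ℕ → ℝ, (∀ a ∈ Icc 1 A, |G a| ≤ (N : ℝ) ^ θ) → (∀ n ∈ Icc 1 H, |f n| ≤ (N : ℝ) ^ θ) →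
    (∀ α : ℝ, ‖∑ n ∈ Icc 1 H, ((f n : ℝ) : ℂ) * ee ((n : ℝ) * α)‖ ≤ (N : ℝ) ^ (1 - κ)) →
    ∑ i, |∑ a ∈ Icc 1 A, G a * (if 1 ≤ (a : ℤ) + v i ∧ (a : ℤ) + v i ≤ H then f ((a : ℤ) + v i).toNat else 0)| ≤
      (N : ℝ) ^ (1 - θ) * Fintype.card ι := by
  obtain ⟨n1, h1⟩ := ev_pow 0 4 θ hθ0
  refine ⟨n1 + 1, fun N hN ι _ v hv hE A H hA hH G f hG hf hsup => ?_⟩
  have a1 := h1 N (by omega)
  rw [pow_zero, mul_one] at a1
  have hN1 : 1 ≤ N := by omega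
  have hN0 : (0 : ℝ) < N := by exact_mod_cast hN1
  have hNr : (1 : ℝ) ≤ N := by exact_mod_cast hN1
  have hp0 : (0 : ℝ) ≤ p := Nat.cast_nonneg p
  rcases isEmpty_or_nonempty ι with hι | hι
  · simp
  obtain ⟨g, hinj, hsurj⟩ := enum ι
  obtain ⟨x, hx⟩ : ∃ x, x = Fintype.card ι := ⟨_, rfl⟩
  have hx1 : 1 ≤ x := by rw [hx]; exact Fintype.card_pos
  have hx0 : (0 : ℝ) < x := by exact_mod_cast hx1
  obtain ⟨s, hs⟩ : ∃ s : ℕ → ℤ, s = fun m => v (g m) := ⟨_, rfl⟩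
  have hsB : ∀ m ∈ Icc 1 x, |s m| ≤ ((N : ℕ) : ℤ) := by
    intro m _
    rw [hs]
    exact hv (g m)
  have hen : (energy p x s : ℝ) ≤ En p v := by
    have := energy_enum p v g 0 hinj
    simp only [sub_zero] at this
    rw [hs, hx]
    exact_mod_cast this
  obtain ⟨M, hM⟩ : ∃ M : ℕ, M = (4 * p + 5) * N := ⟨_, rfl⟩
  have hM5 : 5 * N ≤ M := by rw [hM]; exact Nat.mul_le_mul_right _ (by omega)
  have hM1 : 1 ≤ M := by omega
  have hM0 : (0 : ℝ) < M := by exact_mod_cast hM1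
  have hMr : (M : ℝ) = (4 * p + 5) * N := by rw [hM]; push_cast; ring
  have hcond : ∀ a ∈ Icc 1 A, ∀ m ∈ Icc 1 x, ∀ n ∈ Icc 1 H, |(a : ℤ) + s m - n| < M := by
    intro a ha m hm n hn
    have h4 := abs_le.1 (hsB m hm)
    rw [mem_Icc] at ha hn
    have h5 : (a : ℤ) ≤ 2 * N := by exact_mod_cast ha.2.trans hA
    have h6 : (n : ℤ) ≤ 2 * N := by exact_mod_cast hn.2.trans hH
    have h7 : (5 : ℤ) * N ≤ M := by exact_mod_cast hM5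
    have h9 : (1 : ℤ) ≤ N := by exact_mod_cast hN1
    have h10 : (0 : ℤ) ≤ a := by positivity
    have h11 : (0 : ℤ) ≤ n := by positivity
    rw [abs_lt]
    constructor <;> linarith [h4.1, h4.2]
  have hmomE := moment_energy p x s M N hM1 hsB (by
    rw [hM]
    exact Nat.mul_lt_mul_of_pos_right (by omega) hN1)
  obtain ⟨C0, hC0⟩ : ∃ C0 : ℝ, C0 = (4 * p + 5) * (N : ℝ) ^ (κ / 4) := ⟨_, rfl⟩
  have hmom : ∑ t ∈ range M, (‖∑ m ∈ Icc 1 x, ee ((t : ℝ) * ((s m : ℝ) / M))‖ / x) ^ (2 * p) ≤ C0 := by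
    have h2 : ∑ t ∈ range M, (‖∑ m ∈ Icc 1 x, ee ((t : ℝ) * ((s m : ℝ) / M))‖ / x) ^ (2 * p) =
        (M * energy p x s) / (x : ℝ) ^ (2 * p) := by
      rw [← hmomE, sum_div]
      exact sum_congr rfl fun t _ => div_pow _ _ _
    rw [h2, div_le_iff₀ (by positivity), hMr]
    calc (4 * (p : ℝ) + 5) * N * energy p x s = (4 * p + 5) * (energy p x s * N) := by ring
      _ ≤ (4 * p + 5) * ((N : ℝ) ^ (κ / 4) * (x : ℝ) ^ (2 * p)) := by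
          apply mul_le_mul_of_nonneg_left _ (by positivity)
          refine (mul_le_mul_of_nonneg_right hen hN0.le).trans ?_
          rw [hx]
          exact hE
      _ = _ := by rw [hC0]; ring
  obtain ⟨S, hS⟩ : ∃ S : ℕ → ℝ, S = fun m => ∑ a ∈ Icc 1 A, G a *
      (if 1 ≤ (a : ℤ) + s m ∧ (a : ℤ) + s m ≤ H then f ((a : ℤ) + s m).toNat else 0) := ⟨_, rfl⟩
  obtain ⟨c, hc⟩ : ∃ c : ℕ → ℂ, c = fun m => if 0 ≤ S m then 1 else -1 := ⟨_, rfl⟩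
  have hc1 : ∀ m, ‖c m‖ ≤ 1 := by
    intro m
    rw [hc]
    simp only
    split_ifs <;> simp
  have hcS : ∀ m, c m * (S m : ℂ) = ((|S m| : ℝ) : ℂ) := by
    intro m
    rw [hc]
    simp only
    split_ifs with h
    · rw [abs_of_nonneg h, one_mul]
    · rw [abs_of_neg (not_le.1 h)]
      push_cast
      ring
  have hNθ : 0 < (N : ℝ) ^ θ := Real.rpow_pos_of_pos hN0 _
  have hA' : ((A : ℕ) : ℝ) ≤ 2 * N := by exact_mod_cast hA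
  have hH' : ((H : ℕ) : ℝ) ≤ 2 * N := by exact_mod_cast hH
  have hG1 : ∑ a ∈ Icc 1 A, ‖((G a : ℝ) : ℂ)‖ ≤ 2 * N * (N : ℝ) ^ θ := by
    have q1 : ∀ a ∈ Icc 1 A, ‖((G a : ℝ) : ℂ)‖ ≤ (N : ℝ) ^ θ := by
      intro a ha
      rw [Complex.norm_real, Real.norm_eq_abs]
      exact hG a ha
    refine (sum_le_sum q1).trans ?_
    rw [sum_const, Nat.card_Icc, nsmul_eq_mul, Nat.add_sub_cancel]
    exact mul_le_mul_of_nonneg_right hA' hNθ.le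
  have hG2 : ∑ a ∈ Icc 1 A, ‖((G a : ℝ) : ℂ)‖ ^ 2 ≤ 2 * N * ((N : ℝ) ^ θ) ^ 2 := by
    have q1 : ∀ a ∈ Icc 1 A, ‖((G a : ℝ) : ℂ)‖ ^ 2 ≤ ((N : ℝ) ^ θ) ^ 2 := by
      intro a ha
      rw [Complex.norm_real, Real.norm_eq_abs]
      exact pow_le_pow_left₀ (abs_nonneg _) (hG a ha) 2
    refine (sum_le_sum q1).trans ?_
    rw [sum_const, Nat.card_Icc, nsmul_eq_mul, Nat.add_sub_cancel]
    exact mul_le_mul_of_nonneg_right hA' (by positivity)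
  have hf2 : ∑ a ∈ Icc 1 H, ‖((f a : ℝ) : ℂ)‖ ^ 2 ≤ 2 * N * ((N : ℝ) ^ θ) ^ 2 := by
    have q1 : ∀ a ∈ Icc 1 H, ‖((f a : ℝ) : ℂ)‖ ^ 2 ≤ ((N : ℝ) ^ θ) ^ 2 := by
      intro a ha
      rw [Complex.norm_real, Real.norm_eq_abs]
      exact pow_le_pow_left₀ (abs_nonneg _) (hf a ha) 2
    refine (sum_le_sum q1).trans ?_
    rw [sum_const, Nat.card_Icc, nsmul_eq_mul, Nat.add_sub_cancel]
    exact mul_le_mul_of_nonneg_right hH' (by positivity)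
  obtain ⟨η, hη⟩ : ∃ η : ℝ, η = (N : ℝ) ^ (-(4 * θ)) := ⟨_, rfl⟩
  have hη0 : 0 < η := by rw [hη]; positivity
  have key := bil_l2 A H x M hM1 (fun n => ((f n : ℝ) : ℂ)) (fun n => ((G n : ℝ) : ℂ)) c s ((N : ℝ) ^ (1 - κ)) η p C0
    (2 * N * ((N : ℝ) ^ θ) ^ 2) (2 * N * (N : ℝ) ^ θ) (2 * N * ((N : ℝ) ^ θ) ^ 2) hcond (by omega) (by omega) hx1 hsup hG1 hG2 hc1 hmom hf2 hη0
  have heq : ∑ a ∈ Icc 1 A, ∑ m ∈ Icc 1 x, ((G a : ℝ) : ℂ) * c m * fz (fun n => ((f n : ℝ) : ℂ)) H (a + s m) =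
      ((∑ m ∈ Icc 1 x, |S m| : ℝ) : ℂ) := by
    rw [sum_comm]
    push_cast
    apply sum_congr rfl
    intro m _
    rw [← hcS m, hS]
    push_cast
    rw [mul_sum]
    apply sum_congr rfl
    intro a _
    unfold fz
    split_ifs <;> simp
    ring
  rw [heq, Complex.norm_real, Real.norm_of_nonneg (sum_nonneg fun _ _ => abs_nonneg _)] at key
  have e1 : ∑ i, |∑ a ∈ Icc 1 A, G a * (if 1 ≤ (a : ℤ) + v i ∧ (a : ℤ) + v i ≤ H then f ((a : ℤ) + v i).toNat else 0)| =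
      ∑ m ∈ Icc 1 x, |S m| := by
    rw [hx, ← sum_enum g hinj hsurj, hS, hs]
  rw [e1, ← hx]
  refine key.trans ?_
  have t1 : C0 / η ^ (2 * p) * (N : ℝ) ^ (1 - κ) * (2 * N * (N : ℝ) ^ θ) * x / M ≤ 1 / 2 * ((N : ℝ) ^ (1 - θ) * x) := by
    have e2 : η ^ (2 * p) = (N : ℝ) ^ (-(8 * p * θ)) := by
      rw [hη, ← Real.rpow_natCast, ← Real.rpow_mul hN0.le]
      congr 1
      push_cast
      ring
    have e3 : C0 / η ^ (2 * p) * (N : ℝ) ^ (1 - κ) * (2 * N * (N : ℝ) ^ θ) * x / M =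
        2 * ((N : ℝ) ^ (κ / 4) * (N : ℝ) ^ (8 * p * θ) * (N : ℝ) ^ (1 - κ) * (N : ℝ) ^ θ) * x := by
      rw [hC0, e2, hMr, Real.rpow_neg hN0.le]
      have : (N : ℝ) ^ (8 * (p : ℝ) * θ) ≠ 0 := (Real.rpow_pos_of_pos hN0 _).ne'
      field_simp
    rw [e3, ← Real.rpow_add hN0, ← Real.rpow_add hN0, ← Real.rpow_add hN0]
    have e4 : 4 * (N : ℝ) ^ (κ / 4 + 8 * p * θ + (1 - κ) + θ) ≤ (N : ℝ) ^ (1 - θ) := by
      calc 4 * (N : ℝ) ^ (κ / 4 + 8 * p * θ + (1 - κ) + θ) ≤ (N : ℝ) ^ θ * (N : ℝ) ^ (κ / 4 + 8 * p * θ + (1 - κ) + θ) :=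
            mul_le_mul_of_nonneg_right a1 (by positivity)
        _ = (N : ℝ) ^ (θ + (κ / 4 + 8 * p * θ + (1 - κ) + θ)) := by rw [← Real.rpow_add hN0]
        _ ≤ _ := by
            apply Real.rpow_le_rpow_of_exponent_le hNr
            nlinarith [mul_nonneg hp0 hθ0.le]
    nlinarith [mul_le_mul_of_nonneg_right e4 hx0.le]
  have t2 : η * x * Real.sqrt (2 * N * ((N : ℝ) ^ θ) ^ 2 * (2 * N * ((N : ℝ) ^ θ) ^ 2)) ≤ 1 / 2 * ((N : ℝ) ^ (1 - θ) * x) := by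
    rw [Real.sqrt_mul_self (by positivity)]
    have e2 : ((N : ℝ) ^ θ) ^ 2 = (N : ℝ) ^ (2 * θ) := by
      rw [← Real.rpow_natCast, ← Real.rpow_mul hN0.le]; congr 1; push_cast; ring
    rw [e2, hη]
    have e3 : (N : ℝ) ^ (-(4 * θ)) * x * (2 * N * (N : ℝ) ^ (2 * θ)) = 2 * ((N : ℝ) ^ (-(4 * θ)) * (N : ℝ) ^ (1 : ℝ) * (N : ℝ) ^ (2 * θ)) * x := by
      rw [Real.rpow_one]; ring
    rw [e3, ← Real.rpow_add hN0, ← Real.rpow_add hN0]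
    have e4 : 4 * (N : ℝ) ^ (-(4 * θ) + 1 + 2 * θ) ≤ (N : ℝ) ^ (1 - θ) := by
      calc 4 * (N : ℝ) ^ (-(4 * θ) + 1 + 2 * θ) ≤ (N : ℝ) ^ θ * (N : ℝ) ^ (-(4 * θ) + 1 + 2 * θ) :=
            mul_le_mul_of_nonneg_right a1 (by positivity)
        _ = (N : ℝ) ^ (θ + (-(4 * θ) + 1 + 2 * θ)) := by rw [← Real.rpow_add hN0]
        _ ≤ _ := by
            apply Real.rpow_le_rpow_of_exponent_le hNr
            linarith
    nlinarith [mul_le_mul_of_nonneg_right e4 hx0.le]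
  calc _ ≤ 1 / 2 * ((N : ℝ) ^ (1 - θ) * x) + 1 / 2 * ((N : ℝ) ^ (1 - θ) * x) := add_le_add t1 t2
    _ = _ := by ring


open Classical in
theorem main_Y2 (t p : ℕ) (κ : ℝ) (hκ0 : 0 < κ) (hκ : κ ≤ 1 / (4 * (t + 2))) (hκ2 : κ ≤ 1 / 20) : ∃ θ : ℝ, 0 < θ ∧ ∃ N₀ : ℕ,
    ∀ N : ℕ, N₀ ≤ N → ∀ Y z : ℕ, Par t κ N Y z → ∀ (ι : Type) [Fintype ι] (v : ι → ℤ), (∀ i, |v i| ≤ N) →
    (En p v : ℝ) * N ≤ (N : ℝ) ^ (κ / 4 / 4) * (Fintype.card ι : ℝ) ^ (2 * p) →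
    ((univ.filter (fun i : ι => ∃ x : ℕ, x ≤ N ∧ (N : ℝ) ^ (1 - θ) <
      |Dr (t + 2) x (v i) - Mn (WE Y t) Y (2 * N / Y) z x (v i)|)).card : ℝ) ≤ (N : ℝ) ^ (-θ) * Fintype.card ι := by
  have hp0 : (0 : ℝ) ≤ p := Nat.cast_nonneg p
  obtain ⟨θ₀, hθ₀⟩ : ∃ θ₀ : ℝ, θ₀ = κ / 4 / (16 * ((p : ℝ) + 1)) := ⟨_, rfl⟩
  have hθ00 : 0 < θ₀ := by rw [hθ₀]; positivity
  have hθ01 : 16 * ((p : ℝ) + 1) * θ₀ = κ / 4 := by rw [hθ₀]; field_simp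
  have hθ02 : 16 * θ₀ ≤ κ / 4 := by
    have : 0 ≤ (p : ℝ) * θ₀ := mul_nonneg hp0 hθ00.le
    nlinarith
  have hθ03 : θ₀ ≤ 1 / 1000 := by linarith
  obtain ⟨ε, hε⟩ : ∃ ε : ℝ, ε = θ₀ / 32 := ⟨_, rfl⟩
  have hε0 : 0 < ε := by rw [hε]; positivity
  obtain ⟨n1, h1⟩ := par_bounds t κ hκ0 hκ
  obtain ⟨n2, h2⟩ := sup_pow t κ hκ0 hκ
  obtain ⟨n3, h3⟩ := pt_bounds t ε hε0
  obtain ⟨n4, h4⟩ := pt_ww t ε hε0
  obtain ⟨n5, h5⟩ := fam_pow2 p (κ / 4) θ₀ (by positivity) hθ00 (le_of_eq hθ01)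
  obtain ⟨n6, h6⟩ := ev_pow 0 200 ε hε0
  obtain ⟨n7, h7⟩ := ev_pow 1 3 ε hε0
  obtain ⟨n8, h8⟩ := ev_log 1
  refine ⟨θ₀ / 16, by positivity, n1 + n2 + n3 + n4 + n5 + n6 + n7 + n8 + 2, fun N hN Y z hpar ι _ v hv hE => ?_⟩
  obtain ⟨hY1, _, _, hz1, _, hz2, hz3, hD2⟩ := h1 N (by omega) Y z hpar
  have s2 := h2 N (by omega) Y z hpar
  have s3 := h3 N (by omega)
  have s4 := h4 N (by omega)
  have s5 := h5 N (by omega) ι
  have a6 := h6 N (by omega)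
  have a7 := h7 N (by omega)
  have a8 := h8 N (by omega)
  rw [pow_zero, mul_one] at a6
  rw [pow_one] at a7
  have hN1 : 1 ≤ N := by omega
  have hN0 : (0 : ℝ) < N := by exact_mod_cast hN1
  have hNr : (1 : ℝ) ≤ N := by exact_mod_cast hN1
  obtain ⟨D, hD⟩ : ∃ D, D = 2 * N / Y := ⟨_, rfl⟩
  rw [← hD] at s2 hz3 hD2 ⊢
  obtain ⟨H, hH⟩ : ∃ H, H = 2 * N := ⟨_, rfl⟩
  obtain ⟨K, hK⟩ : ∃ K : ℝ, K = (N : ℝ) ^ ε := ⟨_, rfl⟩
  rw [← hK] at a6 a7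
  have hK1 : 1 ≤ K := by linarith
  have hK0 : 0 < K := by linarith
  have hlogz : 1 + Real.log z ≤ K := by
    have g1 : (z : ℝ) ≤ (N : ℝ) ^ 2 := by
      have g2 : (z : ℝ) ≤ 2 * N := by exact_mod_cast hz3.trans hD2
      have g3 : (2 : ℝ) ≤ N := by exact_mod_cast (by omega : 2 ≤ N)
      nlinarith
    have g2 := Real.log_le_log (by exact_mod_cast hz1 : (0 : ℝ) < z) g1
    rw [Real.log_pow] at g2
    push_cast at g2
    linarith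
  have hpt : ∀ n, 1 ≤ n → n ≤ H → (dk (t + 2) n : ℝ) ≤ K ∧ FY (WE Y t) Y D n ≤ K ∧ |MY (WE Y t) Y D z n| ≤ K := by
    intro n hn1 hn2
    rw [hK]
    exact s3 Y D z n hD2 (hz3.trans hD2) hn1 (by omega)
  have hww : ∀ q ∈ Icc 1 z, ∀ n : ℕ, ww (WE Y t) Y D q n ≤ K / q := by
    intro q hq n
    rw [mem_Icc] at hq
    rw [hK]
    exact s4 Y D q n hD2 hq.1 (by omega)
  have hww' : ∀ q ∈ Icc 1 z, ∀ n : ℕ, ww (WE Y t) Y D q n ≤ K := by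
    intro q hq n
    refine (hww q hq n).trans ?_
    rw [mem_Icc] at hq
    exact div_le_self hK0.le (by exact_mod_cast hq.1)
  have hYD : ∀ a n, n ≤ H → a * Y < n → a ≤ D := by
    intro a n hn ha
    rw [hD, Nat.le_div_iff_mul_le (by omega)]
    omega
  -- the grid
  obtain ⟨L, hL⟩ : ∃ L : ℕ, L = ⌈(N : ℝ) ^ (1 - θ₀ / 4)⌉₊ := ⟨_, rfl⟩
  have hNL1 : 1 ≤ (N : ℝ) ^ (1 - θ₀ / 4) := Real.one_le_rpow hNr (by linarith)
  have hL1 : (N : ℝ) ^ (1 - θ₀ / 4) ≤ L := by rw [hL]; exact Nat.le_ceil _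
  have hL2 : (L : ℝ) ≤ 2 * (N : ℝ) ^ (1 - θ₀ / 4) := by
    have := (Nat.ceil_lt_add_one (by positivity : 0 ≤ (N : ℝ) ^ (1 - θ₀ / 4))).le
    rw [← hL] at this
    linarith
  have hLpos : 0 < L := by
    have : (1 : ℝ) ≤ L := hNL1.trans hL1
    exact_mod_cast this
  have hJ : ((N / L : ℕ) : ℝ) + 1 ≤ 2 * (N : ℝ) ^ (θ₀ / 4) := by
    have g1 : ((N / L : ℕ) : ℝ) ≤ (N : ℝ) / L := Nat.cast_div_le
    have g2 : (N : ℝ) / L ≤ (N : ℝ) ^ (θ₀ / 4) := by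
      rw [div_le_iff₀ (by exact_mod_cast hLpos)]
      calc (N : ℝ) = (N : ℝ) ^ (θ₀ / 4) * (N : ℝ) ^ (1 - θ₀ / 4) := by
            rw [← Real.rpow_add hN0]
            rw [show θ₀ / 4 + (1 - θ₀ / 4) = 1 by ring, Real.rpow_one]
        _ ≤ _ := mul_le_mul_of_nonneg_left hL1 (by positivity)
    have g3 : 1 ≤ (N : ℝ) ^ (θ₀ / 4) := Real.one_le_rpow hNr (by linarith)
    linarith
  -- the two families of sums
  obtain ⟨f, hf⟩ : ∃ f : ℕ → ℝ, f = fun n => FY (WE Y t) Y D n - MY (WE Y t) Y D z n := ⟨_, rfl⟩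
  obtain ⟨T1, hT1⟩ : ∃ T1 : ℕ → ℤ → ℝ, T1 = fun (x : ℕ) (h : ℤ) => ∑ a ∈ Icc 1 x, (dk (t + 2) a : ℝ) *
    (if 1 ≤ (a : ℤ) + h ∧ (a : ℤ) + h ≤ H then f ((a : ℤ) + h).toNat else 0) := ⟨_, rfl⟩
  obtain ⟨T2, hT2⟩ : ∃ T2 : ℕ → ℤ → ℝ, T2 = fun (x : ℕ) (h : ℤ) => ∑ a ∈ Icc 1 H, MY (WE Y t) Y D z a *
    (if 1 ≤ (a : ℤ) + -h ∧ (a : ℤ) + -h ≤ x then f ((a : ℤ) + -h).toNat else 0) := ⟨_, rfl⟩
  have hKθ : K ≤ (N : ℝ) ^ θ₀ := by
    rw [hK]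
    exact Real.rpow_le_rpow_of_exponent_le hNr (by linarith)
  have hKK : K * K ≤ (N : ℝ) ^ θ₀ := by
    rw [hK, ← Real.rpow_add hN0]
    exact Real.rpow_le_rpow_of_exponent_le hNr (by linarith)
  have hfb : ∀ n, 1 ≤ n → n ≤ H → |f n| ≤ (N : ℝ) ^ θ₀ := by
    intro n hn1 hn2
    obtain ⟨_, g2, g3⟩ := hpt n hn1 hn2
    rw [hf]
    simp only
    have g4 : |FY (WE Y t) Y D n| ≤ K := by rw [abs_of_nonneg (FY_nonneg _ (WE_nonneg Y t) _ _ _)]; exact g2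
    refine (abs_sub _ _).trans ?_
    nlinarith
  have hsup : ∀ A : ℕ, A ≤ 2 * N → ∀ α : ℝ, ‖∑ n ∈ Icc 1 A, ((f n : ℝ) : ℂ) * ee ((n : ℝ) * α)‖ ≤ (N : ℝ) ^ (1 - κ / 4) := by
    intro A hA α
    rw [hf]
    exact s2 A hA α
  have b1 : ∀ x : ℕ, x ≤ N → ∑ i, |T1 x (v i)| ≤ (N : ℝ) ^ (1 - θ₀) * Fintype.card ι := by
    intro x hx
    rw [hT1]
    exact s5 v hv hE x H (by omega) (by omega) (fun a => (dk (t + 2) a : ℝ)) f (by
      intro a ha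
      rw [mem_Icc] at ha
      show |(dk (t + 2) a : ℝ)| ≤ _
      rw [abs_of_nonneg (Nat.cast_nonneg _)]
      exact (hpt a ha.1 (by omega)).1.trans hKθ) (by
      intro n hn
      rw [mem_Icc] at hn
      exact hfb n hn.1 hn.2) (hsup H (by omega))
  have b2 : ∀ x : ℕ, x ≤ N → ∑ i, |T2 x (v i)| ≤ (N : ℝ) ^ (1 - θ₀) * Fintype.card ι := by
    intro x hx
    rw [hT2]
    exact s5 (fun i => -v i) (fun i => by rw [abs_neg]; exact hv i) (by rw [En_neg]; exact hE) H x (by omega) (by omega)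
      (fun a => MY (WE Y t) Y D z a) f (by
      intro a ha
      rw [mem_Icc] at ha
      exact (hpt a ha.1 ha.2).2.2.trans hKθ) (by
      intro n hn
      rw [mem_Icc] at hn
      exact hfb n hn.1 (by omega)) (hsup x (by omega))
  obtain ⟨F, hF⟩ : ∃ F : ι → ℝ, F = fun i => ∑ j ∈ range (N / L + 1), (|T1 (j * L) (v i)| + |T2 (j * L) (v i)|) := ⟨_, rfl⟩
  have hF0 : ∀ i, 0 ≤ F i := by
    intro i
    rw [hF]
    exact sum_nonneg fun j _ => add_nonneg (abs_nonneg _) (abs_nonneg _)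
  have hcard0 : (0 : ℝ) ≤ Fintype.card ι := Nat.cast_nonneg _
  have hFsum : ∑ i, F i ≤ 4 * (N : ℝ) ^ (1 - 3 * θ₀ / 4) * Fintype.card ι := by
    rw [hF]
    simp only
    rw [sum_comm]
    have g1 : ∀ j ∈ range (N / L + 1), ∑ i, (|T1 (j * L) (v i)| + |T2 (j * L) (v i)|) ≤ 2 * ((N : ℝ) ^ (1 - θ₀) * Fintype.card ι) := by
      intro j hj
      rw [mem_range] at hj
      have g2 : j * L ≤ N := (Nat.mul_le_mul_right L (by omega : j ≤ N / L)).trans (Nat.div_mul_le_self N L)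
      rw [sum_add_distrib]
      linarith [b1 _ g2, b2 _ g2]
    refine (sum_le_sum g1).trans ?_
    rw [sum_const, card_range, nsmul_eq_mul]
    push_cast
    calc (((N / L : ℕ) : ℝ) + 1) * (2 * ((N : ℝ) ^ (1 - θ₀) * Fintype.card ι)) ≤
          2 * (N : ℝ) ^ (θ₀ / 4) * (2 * ((N : ℝ) ^ (1 - θ₀) * Fintype.card ι)) := mul_le_mul_of_nonneg_right hJ (by positivity)
      _ = 4 * ((N : ℝ) ^ (θ₀ / 4) * (N : ℝ) ^ (1 - θ₀)) * Fintype.card ι := by ring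
      _ = _ := by
          rw [← Real.rpow_add hN0]
          congr 3
          ring
  -- the exceptional set
  have hmk := Pool.Agent.TH212.PL.markov (fun i : ι => ∃ x : ℕ, x ≤ N ∧ (N : ℝ) ^ (1 - θ₀ / 16) <
      |Dr (t + 2) x (v i) - Mn (WE Y t) Y D z x (v i)|) F ((N : ℝ) ^ (1 - θ₀ / 4))
      (4 * (N : ℝ) ^ (1 - 3 * θ₀ / 4) * Fintype.card ι) (by positivity) (by
    rintro i ⟨x, hx, hbad⟩
    by_contra hc
    push Not at hc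
    apply absurd hbad
    push Not
    obtain ⟨j, hj⟩ : ∃ j, j = x / L := ⟨_, rfl⟩
    have hjL : j * L ≤ x := by rw [hj]; exact Nat.div_mul_le_self x L
    have hxj : x < j * L + L := by
      rw [hj]
      have := Nat.lt_div_mul_add hLpos (a := x)
      exact this
    have hjJ : j < N / L + 1 := by
      rw [hj]
      exact Nat.lt_succ_of_le (Nat.div_le_div_right hx)
    have hd := decomp t Y D z (j * L) N H (v i) K hK0.le hz1 (hjL.trans hx) hH (hv i) hYD hpt hww'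
    have hTF : |T1 (j * L) (v i)| + |T2 (j * L) (v i)| ≤ F i := by
      rw [hF]
      exact single_le_sum (f := fun j => |T1 (j * L) (v i)| + |T2 (j * L) (v i)|)
        (fun j _ => add_nonneg (abs_nonneg _) (abs_nonneg _)) (mem_range.2 hjJ)
    have hTT : |T1 (j * L) (v i)| + |T2 (j * L) (v i)| ≤ (N : ℝ) ^ (1 - θ₀ / 4) := hTF.trans hc.le
    rw [hT1, hT2, hf] at hTT
    simp only at hTT
    have i1 := Dr_inc (t + 2) (j * L) x N (v i) K hK0.le hjL hx (hv i) (fun n g1 g2 => (hpt n g1 (by omega)).1)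
    have i2 := Mn_inc (WE Y t) (WE_nonneg Y t) Y D z (j * L) x (v i) K hK0.le hjL hww
    have hxr : (x : ℝ) - ((j * L : ℕ) : ℝ) ≤ L := by
      have : (x : ℝ) < ((j * L : ℕ) : ℝ) + L := by exact_mod_cast hxj
      linarith
    have hK2 : K ^ 2 ≤ K ^ 3 := pow_le_pow_right₀ hK1 (by norm_num)
    have i1' : |Dr (t + 2) x (v i) - Dr (t + 2) (j * L) (v i)| ≤ 2 * (N : ℝ) ^ (1 - θ₀ / 4) * K ^ 3 := by
      refine i1.trans ?_
      exact mul_le_mul (hxr.trans hL2) hK2 (by positivity) (by positivity)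
    have i2' : |Mn (WE Y t) Y D z x (v i) - Mn (WE Y t) Y D z (j * L) (v i)| ≤ 2 * (N : ℝ) ^ (1 - θ₀ / 4) * K ^ 3 := by
      refine i2.trans ?_
      have hlz : 0 ≤ 1 + Real.log z := by have := Real.log_natCast_nonneg z; linarith
      calc ((x : ℝ) - ((j * L : ℕ) : ℝ)) * K ^ 2 * (1 + Real.log z) ≤ (2 * (N : ℝ) ^ (1 - θ₀ / 4)) * K ^ 2 * K := by
            apply mul_le_mul _ hlogz hlz (by positivity)
            exact mul_le_mul_of_nonneg_right (hxr.trans hL2) (by positivity)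
        _ = _ := by ring
    have hYr : (Y : ℝ) ^ (t + 2) ≤ (N : ℝ) ^ (1 - θ₀ / 4) := by
      have g1 : ((Y : ℝ) ^ (t + 2)) ^ 2 ≤ N := by
        rw [← pow_mul, mul_comm (t + 2) 2]
        exact_mod_cast hpar.low
      have g2 : (Y : ℝ) ^ (t + 2) ≤ Real.sqrt N := Real.le_sqrt_of_sq_le g1
      refine g2.trans ?_
      rw [Real.sqrt_eq_rpow]
      exact Real.rpow_le_rpow_of_exponent_le hNr (by linarith)
    have hz6 : (z : ℝ) ^ 6 ≤ 64 * (N : ℝ) ^ (1 - θ₀ / 4) := by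
      calc (z : ℝ) ^ 6 ≤ (2 * (N : ℝ) ^ κ) ^ 6 := pow_le_pow_left₀ (Nat.cast_nonneg _) hz2 6
        _ = 64 * ((N : ℝ) ^ κ) ^ 6 := by ring
        _ = 64 * (N : ℝ) ^ (6 * κ) := by
            rw [← Real.rpow_natCast, ← Real.rpow_mul hN0.le]
            congr 2
            push_cast
            ring
        _ ≤ _ := by
            apply mul_le_mul_of_nonneg_left _ (by norm_num)
            exact Real.rpow_le_rpow_of_exponent_le hNr (by linarith)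
    have hP0 : 0 ≤ (N : ℝ) ^ (1 - θ₀ / 4) := by positivity
    have hK3 : 1 ≤ K ^ 3 := one_le_pow₀ hK1
    have j1 : 2 * (Y : ℝ) ^ (t + 2) * K ^ 2 + 2 * (z : ℝ) ^ 6 * K ^ 2 ≤ 130 * (N : ℝ) ^ (1 - θ₀ / 4) * K ^ 3 := by
      have g1 : 2 * (Y : ℝ) ^ (t + 2) * K ^ 2 ≤ 2 * (N : ℝ) ^ (1 - θ₀ / 4) * K ^ 3 :=
        mul_le_mul (by linarith) hK2 (by positivity) (by positivity)
      have g2 : 2 * (z : ℝ) ^ 6 * K ^ 2 ≤ 128 * (N : ℝ) ^ (1 - θ₀ / 4) * K ^ 3 :=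
        mul_le_mul (by linarith) hK2 (by positivity) (by positivity)
      linarith
    have j2 : (N : ℝ) ^ (1 - θ₀ / 4) ≤ (N : ℝ) ^ (1 - θ₀ / 4) * K ^ 3 := le_mul_of_one_le_right hP0 hK3
    have j3 : |Dr (t + 2) x (v i) - Mn (WE Y t) Y D z x (v i)| ≤ 200 * (N : ℝ) ^ (1 - θ₀ / 4) * K ^ 3 := by
      have e1 : Dr (t + 2) x (v i) - Mn (WE Y t) Y D z x (v i) = (Dr (t + 2) x (v i) - Dr (t + 2) (j * L) (v i)) +
          (Dr (t + 2) (j * L) (v i) - Mn (WE Y t) Y D z (j * L) (v i)) -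
          (Mn (WE Y t) Y D z x (v i) - Mn (WE Y t) Y D z (j * L) (v i)) := by ring
      rw [e1]
      refine (abs_sub _ _).trans ?_
      refine (add_le_add (abs_add_le _ _) le_rfl).trans ?_
      nlinarith [hd, hTT, i1', i2', j1, j2]
    refine j3.trans ?_
    have hPK : 0 ≤ (N : ℝ) ^ (1 - θ₀ / 4) * K ^ 3 := by positivity
    calc 200 * (N : ℝ) ^ (1 - θ₀ / 4) * K ^ 3 = 200 * ((N : ℝ) ^ (1 - θ₀ / 4) * K ^ 3) := by ring
      _ ≤ K * ((N : ℝ) ^ (1 - θ₀ / 4) * K ^ 3) := mul_le_mul_of_nonneg_right a6 hPK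
      _ = (N : ℝ) ^ (1 - θ₀ / 4) * K ^ 4 := by ring
      _ = (N : ℝ) ^ (1 - θ₀ / 4 + 4 * ε) := by
          rw [hK, ← Real.rpow_natCast ((N : ℝ) ^ ε), ← Real.rpow_mul hN0.le, ← Real.rpow_add hN0]
          congr 1
          push_cast
          ring
      _ ≤ _ := by
          apply Real.rpow_le_rpow_of_exponent_le hNr
          rw [hε]
          linarith) hF0 hFsum
  refine hmk.trans ?_
  rw [div_le_iff₀ (by positivity)]
  calc 4 * (N : ℝ) ^ (1 - 3 * θ₀ / 4) * Fintype.card ι ≤ K * (N : ℝ) ^ (1 - 3 * θ₀ / 4) * Fintype.card ι := by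
        apply mul_le_mul_of_nonneg_right _ hcard0
        exact mul_le_mul_of_nonneg_right (by linarith) (by positivity)
    _ = (N : ℝ) ^ (ε + (1 - 3 * θ₀ / 4)) * Fintype.card ι := by rw [hK, Real.rpow_add hN0]
    _ ≤ (N : ℝ) ^ (-(θ₀ / 16) + (1 - θ₀ / 4)) * Fintype.card ι := by
        apply mul_le_mul_of_nonneg_right _ hcard0
        apply Real.rpow_le_rpow_of_exponent_le hNr
        rw [hε]
        linarith
    _ = _ := by rw [Real.rpow_add hN0]; ring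


open Classical in
theorem main_P2 (t : ℕ) (P : ℕ → ℝ[X]) (hP : HW t P) : ∃ κ₁ : ℝ, 0 < κ₁ ∧ ∀ p B : ℕ, ∃ θ : ℝ, 0 < θ ∧ ∃ N₀ : ℕ, ∀ N : ℕ, N₀ ≤ N →
    ∀ (ι : Type) [Fintype ι] (v : ι → ℤ), (∀ i, |v i| ≤ B * N) →
    (En p v : ℝ) * N ≤ (N : ℝ) ^ κ₁ * (Fintype.card ι : ℝ) ^ (2 * p) →
    ((univ.filter (fun i : ι => v i ≠ 0 ∧ ∃ x : ℕ, x ≤ N ∧ (N : ℝ) ^ (1 - θ) <
      |Dr (t + 2) x (v i) - Mf P x (v i)|)).card : ℝ) ≤ (N : ℝ) ^ (-θ) * Fintype.card ι := by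
  obtain ⟨κ₀, hκ₀, hto⟩ := to_poly t P hP
  obtain ⟨κ, hκ⟩ : ∃ κ : ℝ, κ = min κ₀ (min (1 / (4 * ((t : ℝ) + 2))) (1 / 20)) := ⟨_, rfl⟩
  have hκ0 : 0 < κ := by rw [hκ]; positivity
  have hκ1 : κ ≤ κ₀ := by rw [hκ]; exact min_le_left _ _
  have hκ2 : κ ≤ 1 / (4 * (t + 2)) := by rw [hκ]; exact (min_le_right _ _).trans (min_le_left _ _)
  have hκ3 : κ ≤ 1 / 20 := by rw [hκ]; exact (min_le_right _ _).trans (min_le_right _ _)
  refine ⟨κ / 32, by positivity, fun p B => ?_⟩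
  obtain ⟨θ1, hθ1, n1, h1⟩ := main_Y2 t p κ hκ0 hκ2 hκ3
  obtain ⟨θ2, hθ2, n2, h2⟩ := hto κ hκ0 hκ1 hκ2 hκ3
  obtain ⟨n3, h3⟩ := complete t P hP κ hκ0 (by linarith)
  obtain ⟨η, hη⟩ : ∃ η : ℝ, η = min θ1 (min θ2 (min (κ / 8) 1)) := ⟨_, rfl⟩
  have hη0 : 0 < η := by rw [hη]; positivity
  have hη1 : η ≤ θ1 := by rw [hη]; exact min_le_left _ _
  have hη2 : η ≤ θ2 := by rw [hη]; exact (min_le_right _ _).trans (min_le_left _ _)
  have hη3 : η ≤ κ / 8 := by rw [hη]; exact (min_le_right _ _).trans ((min_le_right _ _).trans (min_le_left _ _))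
  have hη4 : η ≤ 1 := by rw [hη]; exact (min_le_right _ _).trans ((min_le_right _ _).trans (min_le_right _ _))
  obtain ⟨n4, h4⟩ := ev_pow 0 (3 * (B + 1)) (η / 2) (by positivity)
  obtain ⟨n5, h5⟩ := ev_pow 0 (B + 1) (κ / 32) (by positivity)
  refine ⟨η / 2, by positivity, n1 + n2 + n3 + n4 + n5 + 2, fun N hN ι _ v hv hE => ?_⟩
  have a4 := h4 N (by omega)
  have a5 := h5 N (by omega)
  rw [pow_zero, mul_one] at a4 a5
  obtain ⟨N', hN'⟩ : ∃ N', N' = (B + 1) * N := ⟨_, rfl⟩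
  have hNN : N ≤ N' := by rw [hN']; exact Nat.le_mul_of_pos_left N (by omega)
  have hN'r : (N' : ℝ) = (B + 1) * N := by rw [hN']; push_cast; ring
  have hN0 : (0 : ℝ) < N := by exact_mod_cast (by omega : 0 < N)
  have hN1 : (1 : ℝ) ≤ N := by exact_mod_cast (by omega : 1 ≤ N)
  have hN'0 : (0 : ℝ) < N' := by exact_mod_cast (by omega : 0 < N')
  have hN'1 : (1 : ℝ) ≤ N' := by exact_mod_cast (by omega : 1 ≤ N')
  have hNNr : (N : ℝ) ≤ N' := by exact_mod_cast hNN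
  have hB0 : (0 : ℝ) ≤ B := Nat.cast_nonneg B
  obtain ⟨Y, hY1, hY2⟩ := exY (2 * (t + 2)) N' (by omega)
  obtain ⟨z, hz⟩ : ∃ z : ℕ, z = ⌈(N' : ℝ) ^ κ⌉₊ := ⟨_, rfl⟩
  have hpar : Par t κ N' Y z := ⟨hY1, hY2, hz⟩
  have hzz : (N' : ℝ) ^ κ ≤ z := by rw [hz]; exact Nat.le_ceil _
  have hv' : ∀ i, |v i| ≤ N' := by
    intro i
    refine (hv i).trans ?_
    have : B * N ≤ N' := by rw [hN']; exact Nat.mul_le_mul_right N (by omega)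
    exact_mod_cast this
  have hNη : (0 : ℝ) < (N : ℝ) ^ (η / 2) := Real.rpow_pos_of_pos hN0 _
  have hBN : (B + 1 : ℝ) ≤ (N : ℝ) ^ (η / 2) := by linarith
  have hE' : (En p v : ℝ) * N' ≤ (N' : ℝ) ^ (κ / 4 / 4) * (Fintype.card ι : ℝ) ^ (2 * p) := by
    have g1 : (N : ℝ) ^ (κ / 32) * (N : ℝ) ^ (κ / 32) ≤ (N' : ℝ) ^ (κ / 4 / 4) := by
      rw [← Real.rpow_add hN0]
      calc (N : ℝ) ^ (κ / 32 + κ / 32) ≤ (N : ℝ) ^ (κ / 4 / 4) := Real.rpow_le_rpow_of_exponent_le hN1 (by linarith)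
        _ ≤ _ := Real.rpow_le_rpow hN0.le hNNr (by positivity)
    calc (En p v : ℝ) * N' = (B + 1) * ((En p v : ℝ) * N) := by rw [hN'r]; ring
      _ ≤ (N : ℝ) ^ (κ / 32) * ((N : ℝ) ^ (κ / 32) * (Fintype.card ι : ℝ) ^ (2 * p)) := by
          apply mul_le_mul a5 hE (by positivity) (by positivity)
      _ = ((N : ℝ) ^ (κ / 32) * (N : ℝ) ^ (κ / 32)) * (Fintype.card ι : ℝ) ^ (2 * p) := by ring
      _ ≤ _ := mul_le_mul_of_nonneg_right g1 (by positivity)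
  have key := h1 N' (by omega) Y z hpar ι v hv' hE'
  have hpow : 3 * (N' : ℝ) ^ (1 - η) ≤ (N : ℝ) ^ (1 - η / 2) := by
    have g1 : (N' : ℝ) ^ (1 - η) ≤ (B + 1) * (N : ℝ) ^ (1 - η) := by
      rw [hN'r, Real.mul_rpow (by positivity) hN0.le]
      apply mul_le_mul_of_nonneg_right _ (by positivity)
      calc ((B : ℝ) + 1) ^ (1 - η) ≤ ((B : ℝ) + 1) ^ (1 : ℝ) := Real.rpow_le_rpow_of_exponent_le (by linarith) (by linarith)
        _ = _ := Real.rpow_one _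
    calc 3 * (N' : ℝ) ^ (1 - η) ≤ 3 * (B + 1) * (N : ℝ) ^ (1 - η) := by linarith
      _ ≤ (N : ℝ) ^ (η / 2) * (N : ℝ) ^ (1 - η) := mul_le_mul_of_nonneg_right a4 (by positivity)
      _ = _ := by rw [← Real.rpow_add hN0]; congr 1; ring
  have hsub : (univ.filter (fun i : ι => v i ≠ 0 ∧ ∃ x : ℕ, x ≤ N ∧ (N : ℝ) ^ (1 - η / 2) < |Dr (t + 2) x (v i) - Mf P x (v i)|)) ⊆
      (univ.filter (fun i : ι => ∃ x : ℕ, x ≤ N' ∧ (N' : ℝ) ^ (1 - θ1) <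
      |Dr (t + 2) x (v i) - Mn (WE Y t) Y (2 * N' / Y) z x (v i)|)) := by
    intro i hi
    rw [mem_filter] at hi ⊢
    obtain ⟨_, hne, x, hx, hbad⟩ := hi
    refine ⟨mem_univ _, x, hx.trans hNN, ?_⟩
    by_contra hc
    push Not at hc
    apply absurd hbad
    push Not
    have b2 := h2 N' (by omega) Y z hpar x (hx.trans hNN) (v i) (hv' i)
    have b3 := h3 N' (by omega) z hzz x (hx.trans hNN) (v i) hne (hv' i)
    have e1 : Dr (t + 2) x (v i) - Mf P x (v i) = (Dr (t + 2) x (v i) - Mn (WE Y t) Y (2 * N' / Y) z x (v i)) +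
        (Mn (WE Y t) Y (2 * N' / Y) z x (v i) - Mp P z x (v i)) + (Mp P z x (v i) - Mf P x (v i)) := by ring
    rw [e1]
    refine (abs_add_le _ _).trans ?_
    refine (add_le_add (abs_add_le _ _) le_rfl).trans ?_
    have c1 : (N' : ℝ) ^ (1 - θ1) ≤ (N' : ℝ) ^ (1 - η) := Real.rpow_le_rpow_of_exponent_le hN'1 (by linarith)
    have c2 : (N' : ℝ) ^ (1 - θ2) ≤ (N' : ℝ) ^ (1 - η) := Real.rpow_le_rpow_of_exponent_le hN'1 (by linarith)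
    have c3 : (N' : ℝ) ^ (1 - κ / 8) ≤ (N' : ℝ) ^ (1 - η) := Real.rpow_le_rpow_of_exponent_le hN'1 (by linarith)
    linarith
  have hcard : ((univ.filter (fun i : ι => v i ≠ 0 ∧ ∃ x : ℕ, x ≤ N ∧ (N : ℝ) ^ (1 - η / 2) < |Dr (t + 2) x (v i) - Mf P x (v i)|)).card : ℝ) ≤
      ((univ.filter (fun i : ι => ∃ x : ℕ, x ≤ N' ∧ (N' : ℝ) ^ (1 - θ1) <
      |Dr (t + 2) x (v i) - Mn (WE Y t) Y (2 * N' / Y) z x (v i)|)).card : ℝ) := by exact_mod_cast card_le_card hsub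
  refine hcard.trans (key.trans ?_)
  apply mul_le_mul_of_nonneg_right _ (Nat.cast_nonneg _)
  calc (N' : ℝ) ^ (-θ1) ≤ (N : ℝ) ^ (-θ1) := Real.rpow_le_rpow_of_nonpos hN0 hNNr (by linarith)
    _ ≤ _ := Real.rpow_le_rpow_of_exponent_le hN1 (by linarith)


open Classical in
theorem fam_final2 (t : ℕ) (P : ℕ → ℝ[X]) (hP : HW t P) : ∃ κ₁ : ℝ, 0 < κ₁ ∧ ∀ p B : ℕ, ∃ θ : ℝ, 0 < θ ∧ θ ≤ 1 ∧ ∀ η : ℝ, 0 < η → η ≤ θ → ∃ N₀ : ℕ,
    ∀ N : ℕ, N₀ ≤ N → ∀ (ι : Type) [Fintype ι] (v : ι → ℤ), (∀ i, |v i| ≤ B * N) →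
    (En p v : ℝ) * N ≤ (N : ℝ) ^ κ₁ * (Fintype.card ι : ℝ) ^ (2 * p) →
    ((univ.filter (fun i : ι => v i ≠ 0 ∧ ¬ GoodP t N P θ η (v i))).card : ℝ) ≤ (N : ℝ) ^ (-θ) * Fintype.card ι := by
  obtain ⟨κ₁, hκ₁, hmain⟩ := main_P2 t P hP
  refine ⟨κ₁, hκ₁, fun p B => ?_⟩
  obtain ⟨θ', hθ', n1, h1⟩ := hmain p B
  obtain ⟨θ, hθ⟩ : ∃ θ : ℝ, θ = min θ' 1 := ⟨_, rfl⟩
  have hθ0 : 0 < θ := by rw [hθ]; positivity
  have hθ1 : θ ≤ θ' := by rw [hθ]; exact min_le_left _ _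
  have hθ2 : θ ≤ 1 := by rw [hθ]; exact min_le_right _ _
  refine ⟨θ, hθ0, hθ2, fun η hη hηθ => ?_⟩
  obtain ⟨n2, h2⟩ := small_shift t P hP η hη (hηθ.trans hθ2)
  obtain ⟨n3, h3⟩ := ev_pow 0 2 (η / 8) (by positivity)
  refine ⟨n1 + n2 + n3 + 1, fun N hN ι _ v hv hE => ?_⟩
  have a3 := h3 N (by omega)
  rw [pow_zero, mul_one] at a3
  have hN0 : (0 : ℝ) < N := by exact_mod_cast (by omega : 0 < N)
  have hN1 : (1 : ℝ) ≤ N := by exact_mod_cast (by omega : 1 ≤ N)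
  have key := h1 N (by omega) ι v hv hE
  have hsub : (univ.filter (fun i : ι => v i ≠ 0 ∧ ¬ GoodP t N P θ η (v i))) ⊆
      (univ.filter (fun i : ι => v i ≠ 0 ∧ ∃ x : ℕ, x ≤ N ∧ (N : ℝ) ^ (1 - θ') < |Dr (t + 2) x (v i) - Mf P x (v i)|)) := by
    intro i hi
    rw [mem_filter] at hi ⊢
    refine ⟨mem_univ _, hi.2.1, ?_⟩
    by_contra hc
    push Not at hc
    apply hi.2.2
    intro x hx
    have b1 := hc x hx
    have c1 : (N : ℝ) ^ (1 - θ') ≤ (N : ℝ) ^ (1 - θ) := Real.rpow_le_rpow_of_exponent_le hN1 (by linarith)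
    refine ⟨b1.trans c1, fun hh => ?_⟩
    have b2 := h2 N (by omega) (v i) hi.2.1 hh x hx
    have c2 : (N : ℝ) ^ (1 - θ') ≤ (N : ℝ) ^ (1 - η / 4) := Real.rpow_le_rpow_of_exponent_le hN1 (by linarith)
    calc |Dr (t + 2) x (v i) - x * (Th t P (v i)).eval (Real.log x)| =
          |(Dr (t + 2) x (v i) - Mf P x (v i)) + (Mf P x (v i) - x * (Th t P (v i)).eval (Real.log x))| := by congr 1; ring
      _ ≤ (N : ℝ) ^ (1 - η / 4) + (N : ℝ) ^ (1 - η / 4) := (abs_add_le _ _).trans (add_le_add (b1.trans c2) b2)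
      _ = 2 * (N : ℝ) ^ (1 - η / 4) := by ring
      _ ≤ (N : ℝ) ^ (η / 8) * (N : ℝ) ^ (1 - η / 4) := mul_le_mul_of_nonneg_right a3 (by positivity)
      _ = _ := by rw [← Real.rpow_add hN0]; congr 1; ring
  have hcard : ((univ.filter (fun i : ι => v i ≠ 0 ∧ ¬ GoodP t N P θ η (v i))).card : ℝ) ≤
      ((univ.filter (fun i : ι => v i ≠ 0 ∧ ∃ x : ℕ, x ≤ N ∧ (N : ℝ) ^ (1 - θ') < |Dr (t + 2) x (v i) - Mf P x (v i)|)).card : ℝ) := by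
    exact_mod_cast card_le_card hsub
  refine hcard.trans (key.trans ?_)
  exact mul_le_mul_of_nonneg_right (Real.rpow_le_rpow_of_exponent_le hN1 (by linarith)) (Nat.cast_nonneg _)


end Pool.Agent.W5h23.SF.Pow
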