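import Pool.Agent.Results.MP_122e00_nt.PowerSavingShifts
import Pool.Agent.W5h23.SF.Pow
import Pool.Agent.W5h23.SF.Conv
import Pool.Agent.W5h23.SF.Level

/-!
Correlations of divisor functions along families of shifts: the main terms and the criterion with a threshold for the energy
which is independent of its order.
-/

set_option autoImplicit false

namespace Pool.Agent.W5h23.SF.Main

open Finset Polynomial
open Pool.Agent.Results.MP_122e00_nt.PowerSavingShifts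

/-- The properties of the polynomials `P_q` and `T_h` in the main terms: `P_q`, `q ≥ 1`, is the density of
`d_r(n) e(b n / q)`, `(b, q) = 1`; it has degree `r - 1`, leading coefficient `κ_{r - 1}(q) / (r - 1)!`, and coefficients
`O(q ^ (ε - 1))`; for `h ≠ 0` the series `G_h(u, v) = ∑ c_q(h) P_q(u) P_q(v)` converges absolutely, and
`T_h(u) + T_h'(u) = G_h(u, u)`; `T_h` has degree `2 r - 2` and leading coefficient `𝔖_r(h) / ((r - 1)!) ^ 2`. -/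
def MainTerms (r : ℕ) (P : ℕ → ℝ[X]) (T : ℤ → ℝ[X]) : Prop :=
  Density r P ∧ (∀ q, 1 ≤ q → (P q).natDegree = r - 1 ∧ (P q).leadingCoeff = κ (r - 1) q / ((r - 1).factorial : ℝ)) ∧
  (∀ ε : ℝ, 0 < ε → ∃ C : ℝ, ∀ q i : ℕ, 1 ≤ q → |(P q).coeff i| ≤ C * (q : ℝ) ^ (ε - 1)) ∧
  ∀ h : ℤ, h ≠ 0 → (∀ u v : ℝ, Summable (fun q : ℕ => (ram (q + 1) h : ℝ) * ((P (q + 1)).eval u * (P (q + 1)).eval v))) ∧
    (∀ u : ℝ, (T h).eval u + (derivative (T h)).eval u = G P h u u) ∧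
    (T h).natDegree = 2 * r - 2 ∧ (T h).leadingCoeff = 𝔖 r h / ((r - 1).factorial : ℝ) ^ 2

open Classical in
theorem exists_main (r : ℕ) (hr : 2 ≤ r) : ∃ (P : ℕ → ℝ[X]) (T : ℤ → ℝ[X]) (κ₁ : ℝ), MainTerms r P T ∧ 0 < κ₁ ∧
    ∀ p B : ℕ, ∃ θ : ℝ, 0 < θ ∧ ∀ η : ℝ, 0 < η → η ≤ θ → ∃ N₀ : ℕ, ∀ N : ℕ, N₀ ≤ N → ∀ (ι : Type) [Fintype ι] (v : ι → ℤ),
      (∀ i, |v i| ≤ B * N) → (energy p v : ℝ) * N ≤ (N : ℝ) ^ κ₁ * (Fintype.card ι : ℝ) ^ (2 * p) →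
      ((univ.filter (fun i : ι => v i ≠ 0 ∧ ¬ Asymp r N P T θ η (v i))).card : ℝ) ≤ (N : ℝ) ^ (-θ) * Fintype.card ι := by
  obtain ⟨t, rfl⟩ : ∃ t, r = t + 2 := ⟨r - 2, by omega⟩
  obtain ⟨P, hP, hlead, hdens⟩ := exists_P t
  have e0 : t + 2 - 1 = t + 1 := by omega
  have e2 : 2 * (t + 2) - 2 = 2 * t + 2 := by omega
  obtain ⟨κ₁, hκ₁, hfin⟩ := Pool.Agent.W5h23.SF.Pow.fam_final2 t P hP
  refine ⟨P, Pool.Agent.TH212.PS.Th t P, κ₁, ⟨hdens, ?_, ?_, ?_⟩, hκ₁, ?_⟩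
  · intro q hq
    rw [e0]
    have hk := Pool.Agent.TH212.PS.kap_pos t q hq
    have hc := hlead q hq
    have hne : (P q).coeff (t + 1) ≠ 0 := by
      rw [hc]
      positivity
    have hd : (P q).natDegree = t + 1 := le_antisymm (hP.deg q) (le_natDegree_of_ne_zero hne)
    refine ⟨hd, ?_⟩
    unfold leadingCoeff
    rw [hd, hc, κ_eq _ _ hq]
  · intro ε hε
    obtain ⟨C, _, h1⟩ := Pool.Agent.TH212.PS.coeff_bound t P hP ε hε
    exact ⟨C, fun q i hq => h1 q hq i⟩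
  · intro h hh
    refine ⟨fun u v => ?_, fun u => ?_, ?_, ?_⟩
    · exact (summable_nat_add_iff 1).2 (Pool.Agent.TH212.PS.series_summable t P hP h hh u v)
    · rw [G_eq t P hP h hh]
      exact Pool.Agent.TH212.PS.Th_eq t P hP h hh u
    · rw [e2]
      exact (Pool.Agent.TH212.PS.Th_full t P hlead h hh).1
    · rw [e0, 𝔖_eq t h hh]
      exact (Pool.Agent.TH212.PS.Th_full t P hlead h hh).2
  · intro p B
    obtain ⟨θ, hθ, _, h1⟩ := hfin p B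
    refine ⟨θ, hθ, fun η hη hηθ => ?_⟩
    obtain ⟨N₀, h2⟩ := h1 η hη hηθ
    refine ⟨N₀, fun N hN ι _ v hv hE => le_trans ?_ (h2 N hN ι v hv hE)⟩
    apply Nat.cast_le.2
    apply card_le_card
    intro i hi
    rw [mem_filter] at hi ⊢
    exact ⟨mem_univ _, hi.2.1, fun hg => hi.2.2 (asymp_of t N P hP θ η (v i) hi.2.1 hg)⟩

theorem energy_eq_en (n p : ℕ) (a : ℕ → ℤ) : energy p (fun i : Fin n => a i) = Pool.Agent.W5h23.Conv.en n p a := by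
  unfold energy Pool.Agent.W5h23.Conv.en Pool.Agent.W5h23.Conv.pairs
  rw [Nat.card_eq_fintype_card, Fintype.card_subtype, univ_product_univ]

theorem en_neg (n p : ℕ) (a : ℕ → ℤ) : Pool.Agent.W5h23.Conv.en n p (fun i => -a i) = Pool.Agent.W5h23.Conv.en n p a := by
  unfold Pool.Agent.W5h23.Conv.en
  congr 1
  ext q
  rw [Pool.Agent.W5h23.Conv.mem_pairs, Pool.Agent.W5h23.Conv.mem_pairs]
  simp only [sum_neg_distrib, neg_inj]

/-- the differences of the sequence increase, or they decrease -/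
def ConvexOrConcave (n : ℕ) (a : ℕ → ℤ) : Prop :=
  (∀ i, i + 2 < n → a (i + 1) - a i < a (i + 2) - a (i + 1)) ∨ (∀ i, i + 2 < n → a (i + 2) - a (i + 1) < a (i + 1) - a i)

theorem energy_conv (κ₁ : ℝ) (hκ₁ : 0 < κ₁) : ∃ p N₀ : ℕ, ∀ N : ℕ, N₀ ≤ N → ∀ n : ℕ, (N : ℝ) ^ (1 / 2 - κ₁ / 8) ≤ n → ∀ a : ℕ → ℤ,
    ConvexOrConcave n a → (energy p (fun i : Fin n => a i) : ℝ) * N ≤ (N : ℝ) ^ κ₁ * (n : ℝ) ^ (2 * p) := by
  obtain ⟨p, hp⟩ := exists_pow_lt_of_lt_one (by positivity : (0 : ℝ) < κ₁ / 8) (by norm_num : (1 / 2 : ℝ) < 1)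
  have h := ((tendsto_rpow_atTop (by positivity : 0 < κ₁ / 2)).comp tendsto_natCast_atTop_atTop).eventually_ge_atTop (2304 : ℝ)
  obtain ⟨N₀, h0⟩ := Filter.eventually_atTop.1 h
  refine ⟨p, N₀ + 1, fun N hN n hn a ha => ?_⟩
  have hC : (2304 : ℝ) ≤ (N : ℝ) ^ (κ₁ / 2) := h0 N (by omega)
  have hN0 : (0 : ℝ) < N := by exact_mod_cast (by omega : 0 < N)
  have hN1 : (1 : ℝ) ≤ N := by exact_mod_cast (by omega : 1 ≤ N)
  have hpos : 0 < (N : ℝ) ^ (1 / 2 - κ₁ / 8) := Real.rpow_pos_of_pos hN0 _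
  have hn0 : (0 : ℝ) < n := hpos.trans_le hn
  have hn1 : 1 ≤ n := by exact_mod_cast hn0
  have hE : (Pool.Agent.W5h23.Conv.en n p a : ℝ) ≤ 2304 * (n : ℝ) ^ (2 * (p : ℝ) - 2 + 2 * (1 / 2) ^ p) := by
    rcases ha with ha | ha
    · exact Pool.Agent.W5h23.Conv.en_convex n hn1 a ha p
    · rw [← en_neg]
      exact Pool.Agent.W5h23.Conv.en_convex n hn1 (fun i => -a i) (fun i hi => by
        have := ha i hi
        show -a (i + 1) - -a i < -a (i + 2) - -a (i + 1)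
        linarith) p
  rw [energy_eq_en]
  obtain ⟨δ, hδ⟩ : ∃ δ : ℝ, δ = (1 / 2) ^ p := ⟨_, rfl⟩
  have hδ0 : 0 < δ := by rw [hδ]; positivity
  have hδ1 : δ ≤ 1 := by rw [hδ]; exact pow_le_one₀ (by norm_num) (by norm_num)
  rw [← hδ] at hp hE
  have e1 : (n : ℝ) ^ (2 * (p : ℝ) - 2 + 2 * δ) = (n : ℝ) ^ (2 * p) * (n : ℝ) ^ (-2 + 2 * δ) := by
    rw [← Real.rpow_natCast, ← Real.rpow_add hn0]
    congr 1
    push_cast
    ring
  have e2 : (n : ℝ) ^ (-2 + 2 * δ) ≤ (N : ℝ) ^ (κ₁ / 2 - 1) := by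
    calc (n : ℝ) ^ (-2 + 2 * δ) ≤ ((N : ℝ) ^ (1 / 2 - κ₁ / 8)) ^ (-2 + 2 * δ) :=
          Real.rpow_le_rpow_of_nonpos hpos hn (by linarith)
      _ = (N : ℝ) ^ ((1 / 2 - κ₁ / 8) * (-2 + 2 * δ)) := by rw [← Real.rpow_mul hN0.le]
      _ ≤ _ := by
          apply Real.rpow_le_rpow_of_exponent_le hN1
          nlinarith [mul_pos hκ₁ hδ0]
  calc (Pool.Agent.W5h23.Conv.en n p a : ℝ) * N ≤ 2304 * ((n : ℝ) ^ (2 * p) * (n : ℝ) ^ (-2 + 2 * δ)) * N := by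
        apply mul_le_mul_of_nonneg_right _ hN0.le
        rw [← e1]
        exact hE
    _ ≤ (N : ℝ) ^ (κ₁ / 2) * ((n : ℝ) ^ (2 * p) * (N : ℝ) ^ (κ₁ / 2 - 1)) * N := by gcongr
    _ = ((N : ℝ) ^ (κ₁ / 2) * (N : ℝ) ^ (κ₁ / 2 - 1) * (N : ℝ) ^ (1 : ℝ)) * (n : ℝ) ^ (2 * p) := by rw [Real.rpow_one]; ring
    _ = _ := by
        rw [← Real.rpow_add hN0, ← Real.rpow_add hN0]
        congr 2
        ring

/-- a count over `i < n` as a count over `Fin n` -/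
theorem count_fin (n : ℕ) (a : ℕ → ℤ) (Q : ℤ → Prop) [DecidablePred Q] :
    ((range n).filter (fun i => Q (a i))).card ≤ (univ.filter (fun i : Fin n => Q (a i))).card := by
  have h : (range n).filter (fun i => Q (a i)) ⊆ (univ.filter (fun i : Fin n => Q (a i))).image (fun i : Fin n => (i : ℕ)) := by
    intro i hi
    rw [mem_filter, mem_range] at hi
    rw [mem_image]
    exact ⟨⟨i, hi.1⟩, mem_filter.2 ⟨mem_univ _, hi.2⟩, rfl⟩
  exact (card_le_card h).trans card_image_le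

end Pool.Agent.W5h23.SF.Main
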