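import Pool.Agent.H469R2.NK.KL

/-!
The number of close pairs of real numbers and the mean square of their exponential sum over a short interval.
-/

set_option autoImplicit false

namespace Pool.Agent.W5h23.SF

open Finset Real
open Pool.Agent.H469R2.NK (e)

lemma e_re (x : ℝ) : (e x).re = cos (2 * π * x) := by
  unfold e
  rw [Complex.exp_ofReal_mul_I_re]

lemma e_im (x : ℝ) : (e x).im = sin (2 * π * x) := by
  unfold e
  rw [Complex.exp_ofReal_mul_I_im]

/-- `|∫_0^T e(t D) dt|²` -/
noncomputable def KK (T D : ℝ) : ℝ :=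
  (∫ t in (0 : ℝ)..T, cos (2 * π * (t * D))) ^ 2 + (∫ t in (0 : ℝ)..T, sin (2 * π * (t * D))) ^ 2

lemma cont_cos (D : ℝ) : Continuous fun t : ℝ => cos (2 * π * (t * D)) := by fun_prop
lemma cont_sin (D : ℝ) : Continuous fun t : ℝ => sin (2 * π * (t * D)) := by fun_prop

lemma KK_eq (T D : ℝ) : KK T D = ∫ s in (0 : ℝ)..T, ∫ t in (0 : ℝ)..T, cos (2 * π * ((t - s) * D)) := by
  have h1 : ∀ s : ℝ, ∫ t in (0 : ℝ)..T, cos (2 * π * ((t - s) * D)) =
      (∫ t in (0 : ℝ)..T, cos (2 * π * (t * D))) * cos (2 * π * (s * D)) +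
        (∫ t in (0 : ℝ)..T, sin (2 * π * (t * D))) * sin (2 * π * (s * D)) := by
    intro s
    rw [← intervalIntegral.integral_mul_const, ← intervalIntegral.integral_mul_const,
      ← intervalIntegral.integral_add]
    · apply intervalIntegral.integral_congr
      intro t _
      simp only
      rw [← cos_sub]
      congr 1
      ring
    · exact ((cont_cos D).mul continuous_const).intervalIntegrable _ _
    · exact ((cont_sin D).mul continuous_const).intervalIntegrable _ _
  simp only [h1]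
  rw [intervalIntegral.integral_add, intervalIntegral.integral_const_mul, intervalIntegral.integral_const_mul]
  · unfold KK
    ring
  · exact (continuous_const.mul (cont_cos D)).intervalIntegrable _ _
  · exact (continuous_const.mul (cont_sin D)).intervalIntegrable _ _

lemma KK_nonneg (T D : ℝ) : 0 ≤ KK T D := by unfold KK; positivity

lemma KK_ge (T D : ℝ) (hT : 0 ≤ T) (hD : T * |D| ≤ 1 / 8) : T ^ 2 / 4 ≤ KK T D := by
  have h1 : T * (1 / 2) ≤ ∫ t in (0 : ℝ)..T, cos (2 * π * (t * D)) := by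
    have h2 : ∫ t in (0 : ℝ)..T, (1 / 2 : ℝ) = T * (1 / 2) := by
      rw [intervalIntegral.integral_const]
      simp
    rw [← h2]
    apply intervalIntegral.integral_mono_on hT
    · exact continuous_const.intervalIntegrable _ _
    · exact (cont_cos D).intervalIntegrable _ _
    · intro t ht
      have h3 : |t * D| ≤ 1 / 8 := by
        rw [abs_mul, abs_of_nonneg ht.1]
        exact (mul_le_mul_of_nonneg_right ht.2 (abs_nonneg _)).trans hD
      have h4 : cos (π / 3) ≤ cos |2 * π * (t * D)| := by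
        apply cos_le_cos_of_nonneg_of_le_pi (abs_nonneg _) (by linarith [pi_pos])
        rw [abs_mul, abs_of_pos (by positivity : (0 : ℝ) < 2 * π)]
        nlinarith [pi_pos]
      rw [cos_abs, cos_pi_div_three] at h4
      exact h4
  have h5 : (T * (1 / 2)) ^ 2 ≤ (∫ t in (0 : ℝ)..T, cos (2 * π * (t * D))) ^ 2 := by
    apply pow_le_pow_left₀ (by positivity) h1
  unfold KK
  nlinarith [sq_nonneg (∫ t in (0 : ℝ)..T, sin (2 * π * (t * D)))]

variable {ι : Type} [Fintype ι]

/-- the exponential sum -/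
noncomputable def GG (lam : ι → ℝ) (r : ℝ) : ℂ := ∑ x, e (r * lam x)

lemma GG_cont (lam : ι → ℝ) : Continuous fun r => ‖GG lam r‖ ^ 2 := by
  unfold GG e
  fun_prop

lemma GG_sq (lam : ι → ℝ) (r : ℝ) :
    ‖GG lam r‖ ^ 2 = ∑ q : ι × ι, cos (2 * π * (r * (lam q.1 - lam q.2))) := by
  have h1 : ‖GG lam r‖ ^ 2 = (∑ x, cos (2 * π * (r * lam x))) ^ 2 + (∑ x, sin (2 * π * (r * lam x))) ^ 2 := by
    rw [← Complex.normSq_eq_norm_sq, Complex.normSq_apply]
    unfold GG
    rw [Complex.re_sum, Complex.im_sum]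
    simp only [e_re, e_im]
    ring
  rw [h1, sq, sq, sum_mul_sum, sum_mul_sum, ← sum_add_distrib, Fintype.sum_prod_type]
  apply sum_congr rfl
  intro x _
  rw [← sum_add_distrib]
  apply sum_congr rfl
  intro y _
  rw [← cos_sub]
  congr 1
  ring

/-- the number of the close pairs -/
theorem close_pairs (lam : ι → ℝ) (T p : ℝ) (hT : 0 < T) (hp : T * p ≤ 1 / 8) :
    (Nat.card {q : ι × ι // |lam q.1 - lam q.2| ≤ p} : ℝ) ≤ 4 / T * ∫ r in (-T)..T, ‖GG lam r‖ ^ 2 := by
  classical
  have h1 : (Nat.card {q : ι × ι // |lam q.1 - lam q.2| ≤ p} : ℝ) * (T ^ 2 / 4) ≤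
      ∑ q : ι × ι, KK T (lam q.1 - lam q.2) := by
    rw [Nat.card_eq_fintype_card, Fintype.card_subtype, ← nsmul_eq_mul, ← sum_const]
    refine (sum_le_sum fun q hq => ?_).trans
      (sum_le_sum_of_subset_of_nonneg (filter_subset _ _) fun q _ _ => KK_nonneg _ _)
    rw [mem_filter] at hq
    apply KK_ge _ _ hT.le
    exact (mul_le_mul_of_nonneg_left hq.2 hT.le).trans hp
  have h2 : ∑ q : ι × ι, KK T (lam q.1 - lam q.2) =
      ∫ s in (0 : ℝ)..T, ∫ t in (0 : ℝ)..T, ‖GG lam (t - s)‖ ^ 2 := by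
    simp only [KK_eq, GG_sq]
    rw [← intervalIntegral.integral_finsetSum]
    · apply intervalIntegral.integral_congr
      intro s _
      simp only
      rw [← intervalIntegral.integral_finsetSum]
      intro q _
      apply Continuous.intervalIntegrable
      fun_prop
    · intro q _
      apply Continuous.intervalIntegrable
      apply intervalIntegral.continuous_parametric_intervalIntegral_of_continuous'
      fun_prop
  have h3 : ∀ s ∈ Set.Icc (0 : ℝ) T, ∫ t in (0 : ℝ)..T, ‖GG lam (t - s)‖ ^ 2 ≤ ∫ r in (-T)..T, ‖GG lam r‖ ^ 2 := by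
    intro s hs
    rw [intervalIntegral.integral_comp_sub_right (fun r => ‖GG lam r‖ ^ 2) s]
    apply intervalIntegral.integral_mono_interval
    · linarith [hs.2]
    · linarith [hs.1]
    · linarith [hs.1]
    · exact Filter.Eventually.of_forall fun r => by positivity
    · exact (GG_cont lam).intervalIntegrable _ _
  have h4 : ∫ s in (0 : ℝ)..T, ∫ t in (0 : ℝ)..T, ‖GG lam (t - s)‖ ^ 2 ≤
      ∫ s in (0 : ℝ)..T, ∫ r in (-T)..T, ‖GG lam r‖ ^ 2 := by
    apply intervalIntegral.integral_mono_on hT.le _ _ h3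
    · apply Continuous.intervalIntegrable
      apply intervalIntegral.continuous_parametric_intervalIntegral_of_continuous'
      have : Function.uncurry (fun s t : ℝ => ‖GG lam (t - s)‖ ^ 2) =
          (fun r => ‖GG lam r‖ ^ 2) ∘ fun q : ℝ × ℝ => q.2 - q.1 := rfl
      rw [this]
      exact (GG_cont lam).comp (by fun_prop)
    · exact continuous_const.intervalIntegrable _ _
  rw [intervalIntegral.integral_const, sub_zero, smul_eq_mul] at h4
  set I := ∫ r in (-T)..T, ‖GG lam r‖ ^ 2
  have h5 : (Nat.card {q : ι × ι // |lam q.1 - lam q.2| ≤ p} : ℝ) * (T ^ 2 / 4) ≤ T * I := by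
    rw [h2] at h1
    exact h1.trans h4
  rw [div_mul_eq_mul_div, le_div_iff₀ hT]
  nlinarith

end Pool.Agent.W5h23.SF
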