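import Pool.Agent.W5h23.SF.Vdc
import Pool.Agent.W5h23.SF.Pairs

/-!
The additive energy, with real tolerance, of the values of a smooth function all of whose derivatives have the
right size.
-/

set_option autoImplicit false

namespace Pool.Agent.W5h23.SF

open Finset Real
open Pool.Agent.H469R2.NK (e norm_e e_add)

/-- sums over tuples are powers -/
lemma GG_pow {κ : Type} [Fintype κ] (p : ℕ) (g : κ → ℝ) (r : ℝ) :
    GG (fun x : Fin p → κ => ∑ j, g (x j)) r = (∑ i, e (r * g i)) ^ p := by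
  classical
  unfold GG
  rw [Fintype.sum_pow]
  apply sum_congr rfl
  intro x _
  have h : ∀ s : Finset (Fin p), e (r * ∑ j ∈ s, g (x j)) = ∏ j ∈ s, e (r * g (x j)) := by
    intro s
    induction s using Finset.induction_on with
    | empty => simp [Pool.Agent.H469R2.NK.e_zero]
    | insert a s ha ih => rw [sum_insert ha, prod_insert ha, mul_add, e_add, ih]
  exact h univ

lemma inv_bound {y : ℝ} (hy : 1 ≤ |y|) {n : ℕ} (hn : 2 ≤ n) : 1 / |y| ^ n ≤ 2 * (1 + y ^ 2)⁻¹ := by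
  have h1 : |y| ^ 2 ≤ |y| ^ n := pow_le_pow_right₀ hy hn
  rw [sq_abs] at h1
  have h2 : 1 ≤ y ^ 2 := by rw [← sq_abs]; nlinarith
  rw [← div_eq_mul_inv, div_le_div_iff₀ (by positivity) (by positivity)]
  linarith

theorem real_energy (Q : ℕ) (hQ : 1 ≤ Q) (c0 C0 : ℝ) (hc0 : 0 < c0) (hC0 : 1 ≤ C0) :
    ∃ (p : ℕ) (C : ℝ), 1 ≤ p ∧ 0 < C ∧ ∀ (J : ℕ) (A : ℝ) (s : ℕ → ℝ) (φ : ℕ → ℝ → ℝ), 1 ≤ J → 1 ≤ A →
      A ≤ (J : ℝ) ^ Q → Hyp (Q + 2) J c0 C0 s φ →
      (Nat.card {q : (Fin p → Fin J) × (Fin p → Fin J) //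
        |∑ j, A * φ 0 ((J : ℝ) + (q.1 j : ℕ)) - ∑ j, A * φ 0 ((J : ℝ) + (q.2 j : ℕ))| ≤ p} : ℝ) ≤
          C * (J : ℝ) ^ (2 * p) / A := by
  obtain ⟨η, hη0, hη1, C1, hC1, hv⟩ := vdc Q hQ c0 C0 hc0 hC0
  obtain ⟨p0, hp0⟩ := exists_nat_ge ((Q : ℝ) / (2 * η))
  set p := p0 + 1 with hpd
  have hp : (Q : ℝ) ≤ 2 * p * η := by
    rw [div_le_iff₀ (by positivity)] at hp0
    have : (p : ℝ) = p0 + 1 := by rw [hpd]; push_cast; ring
    rw [this]
    nlinarith
  have hp1 : (1 : ℝ) ≤ p := by rw [hpd]; push_cast; linarith [(Nat.cast_nonneg p0 : (0 : ℝ) ≤ p0)]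
  set T : ℝ := 1 / (8 * p) with hT
  have hT0 : 0 < T := by rw [hT]; positivity
  have hT1 : T ≤ 1 := by
    rw [hT, div_le_one (by positivity)]
    linarith
  set D : ℝ := 2 * (2 * C1) ^ (2 * p) + 2 with hD
  have hD0 : 0 < D := by positivity
  refine ⟨p, 4 / T * D * (2 + π), by omega, by positivity, ?_⟩
  intro J A s φ hJ hA hAQ hyp
  have hJ1 : (1 : ℝ) ≤ J := by exact_mod_cast hJ
  have hJ0 : (0 : ℝ) < J := by linarith
  have hA0 : 0 < A := by linarith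
  set lam : (Fin p → Fin J) → ℝ := fun x => ∑ j, A * φ 0 ((J : ℝ) + (x j : ℕ)) with hlam
  have h1 := close_pairs lam T p hT0 (by
    rw [hT]
    have : (p : ℝ) ≠ 0 := by positivity
    field_simp
    norm_num)
  -- the pointwise bound
  have hpt : ∀ r ∈ Set.Icc (-T) T, ‖GG lam r‖ ^ 2 ≤
      D * ((J : ℝ) ^ (2 * p) / A + (J : ℝ) ^ (2 * p) * (1 + (A * r) ^ 2)⁻¹) := by
    intro r hr
    have e1 : GG lam r = (∑ i : Fin J, e (r * (A * φ 0 ((J : ℝ) + (i : ℕ))))) ^ p :=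
      GG_pow p (fun i : Fin J => A * φ 0 ((J : ℝ) + (i : ℕ))) r
    have e2 : ∑ i : Fin J, e (r * (A * φ 0 ((J : ℝ) + (i : ℕ)))) =
        ∑ n ∈ range J, e (r * A * φ 0 ((J : ℝ) + n)) := by
      rw [← Fin.sum_univ_eq_sum_range (fun n => e (r * A * φ 0 ((J : ℝ) + n))) J]
      apply sum_congr rfl
      intro i _
      rw [mul_assoc]
    rw [e1, e2, norm_pow, ← pow_mul, mul_comm p 2]
    set S := ‖∑ n ∈ range J, e (r * A * φ 0 ((J : ℝ) + n))‖ with hS
    have hS0 : 0 ≤ S := norm_nonneg _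
    have hSJ : S ≤ J := by
      rw [hS]
      refine (norm_sum_le _ _).trans ?_
      simp [norm_e]
    have ha : 0 ≤ (J : ℝ) ^ (2 * p) / A := by positivity
    have hb : 0 ≤ (J : ℝ) ^ (2 * p) * (1 + (A * r) ^ 2)⁻¹ := by positivity
    rcases lt_or_ge (|r * A|) 1 with hc | hc
    · have h2 : S ^ (2 * p) ≤ (J : ℝ) ^ (2 * p) := pow_le_pow_left₀ hS0 hSJ _
      have h3 : (A * r) ^ 2 ≤ 1 := by
        rw [← sq_abs, mul_comm A r]
        have := abs_nonneg (r * A)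
        nlinarith
      have h4 : (1 : ℝ) ≤ 2 * (1 + (A * r) ^ 2)⁻¹ := by
        rw [← div_eq_mul_inv, le_div_iff₀ (by positivity)]
        linarith
      have h5 : (J : ℝ) ^ (2 * p) ≤ 2 * ((J : ℝ) ^ (2 * p) * (1 + (A * r) ^ 2)⁻¹) := by
        calc (J : ℝ) ^ (2 * p) = (J : ℝ) ^ (2 * p) * 1 := by ring
          _ ≤ (J : ℝ) ^ (2 * p) * (2 * (1 + (A * r) ^ 2)⁻¹) := by gcongr
          _ = _ := by ring
      have h6 : (2 : ℝ) ≤ D := by
        rw [hD]
        have : (0 : ℝ) ≤ 2 * (2 * C1) ^ (2 * p) := by positivity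
        linarith
      calc S ^ (2 * p) ≤ 2 * ((J : ℝ) ^ (2 * p) * (1 + (A * r) ^ 2)⁻¹) := h2.trans h5
        _ ≤ D * ((J : ℝ) ^ (2 * p) * (1 + (A * r) ^ 2)⁻¹) := by gcongr
        _ ≤ _ := by
          apply mul_le_mul_of_nonneg_left _ hD0.le
          linarith
    · have h2 := hv J J J (r * A) s φ hJ le_rfl le_rfl (by linarith) hyp hc (by
        rw [abs_mul, abs_of_pos hA0]
        have : |r| ≤ 1 := abs_le.2 ⟨by linarith [hr.1], by linarith [hr.2]⟩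
        calc |r| * A ≤ 1 * A := by gcongr
          _ ≤ _ := by rw [one_mul]; exact hAQ)
      rw [← hS] at h2
      have h3 : S ^ (2 * p) ≤ (C1 * ((J : ℝ) ^ (1 - η) + J / |r * A|)) ^ (2 * p) := pow_le_pow_left₀ hS0 h2 _
      rw [mul_pow] at h3
      have h4 := add_pow_le (a := (J : ℝ) ^ (1 - η)) (b := J / |r * A|) (by positivity) (by positivity) (2 * p)
      have h5 : ((J : ℝ) ^ (1 - η)) ^ (2 * p) ≤ (J : ℝ) ^ (2 * p) / A := by
        rw [le_div_iff₀ hA0]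
        calc ((J : ℝ) ^ (1 - η)) ^ (2 * p) * A ≤ ((J : ℝ) ^ (1 - η)) ^ (2 * p) * (J : ℝ) ^ Q := by gcongr
          _ = (J : ℝ) ^ ((1 - η) * (2 * p : ℕ) + Q) := by
              rw [← Real.rpow_natCast ((J : ℝ) ^ (1 - η)), ← Real.rpow_mul hJ0.le, ← Real.rpow_natCast (J : ℝ) Q,
                ← Real.rpow_add hJ0]
          _ ≤ (J : ℝ) ^ ((2 * p : ℕ) : ℝ) := by
              apply Real.rpow_le_rpow_of_exponent_le hJ1
              push_cast
              nlinarith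
          _ = _ := Real.rpow_natCast _ _
      have h6 : (J / |r * A|) ^ (2 * p) ≤ 2 * ((J : ℝ) ^ (2 * p) * (1 + (A * r) ^ 2)⁻¹) := by
        rw [div_pow]
        have h7 := inv_bound hc (n := 2 * p) (by omega)
        rw [mul_comm r A] at h7
        calc (J : ℝ) ^ (2 * p) / |r * A| ^ (2 * p) = (J : ℝ) ^ (2 * p) * (1 / |A * r| ^ (2 * p)) := by
              rw [mul_comm r A]; ring
          _ ≤ (J : ℝ) ^ (2 * p) * (2 * (1 + (A * r) ^ 2)⁻¹) := by gcongr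
          _ = _ := by ring
      have h8 : (2 : ℝ) ^ (2 * p - 1) ≤ 2 ^ (2 * p) := pow_le_pow_right₀ (by norm_num) (by omega)
      calc S ^ (2 * p) ≤ C1 ^ (2 * p) * (2 ^ (2 * p - 1) * (((J : ℝ) ^ (1 - η)) ^ (2 * p) + (J / |r * A|) ^ (2 * p))) :=
            h3.trans (mul_le_mul_of_nonneg_left h4 (by positivity))
        _ ≤ C1 ^ (2 * p) * (2 ^ (2 * p) * ((J : ℝ) ^ (2 * p) / A + 2 * ((J : ℝ) ^ (2 * p) * (1 + (A * r) ^ 2)⁻¹))) := by
            gcongr
        _ ≤ C1 ^ (2 * p) * (2 ^ (2 * p) * (2 * ((J : ℝ) ^ (2 * p) / A + (J : ℝ) ^ (2 * p) * (1 + (A * r) ^ 2)⁻¹))) := by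
            gcongr
            linarith
        _ = (2 * (2 * C1) ^ (2 * p)) * ((J : ℝ) ^ (2 * p) / A + (J : ℝ) ^ (2 * p) * (1 + (A * r) ^ 2)⁻¹) := by
            rw [mul_pow]; ring
        _ ≤ _ := by
            apply mul_le_mul_of_nonneg_right _ (by linarith)
            rw [hD]
            linarith
  -- the integral
  have hcont : Continuous fun r : ℝ => (1 + (A * r) ^ 2)⁻¹ := by
    apply Continuous.inv₀ (by fun_prop)
    intro r
    positivity
  have h2 : ∫ r in (-T)..T, ‖GG lam r‖ ^ 2 ≤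
      ∫ r in (-T)..T, D * ((J : ℝ) ^ (2 * p) / A + (J : ℝ) ^ (2 * p) * (1 + (A * r) ^ 2)⁻¹) := by
    apply intervalIntegral.integral_mono_on (by linarith) _ _ hpt
    · exact (GG_cont lam).intervalIntegrable _ _
    · exact (continuous_const.mul (continuous_const.add (continuous_const.mul hcont))).intervalIntegrable _ _
  have h3 : ∫ r in (-T)..T, (1 + (A * r) ^ 2)⁻¹ ≤ π / A := by
    rw [intervalIntegral.integral_comp_mul_left (fun y => (1 + y ^ 2)⁻¹) hA0.ne', integral_inv_one_add_sq, smul_eq_mul]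
    have h4 := Real.arctan_lt_pi_div_two (A * T)
    have h5 := Real.neg_pi_div_two_lt_arctan (A * -T)
    rw [inv_mul_eq_div]
    gcongr
    linarith
  rw [intervalIntegral.integral_const_mul, intervalIntegral.integral_add, intervalIntegral.integral_const,
    intervalIntegral.integral_const_mul, smul_eq_mul] at h2
  rotate_left
  · exact continuous_const.intervalIntegrable _ _
  · exact (continuous_const.mul hcont).intervalIntegrable _ _
  have h4 : ∫ r in (-T)..T, ‖GG lam r‖ ^ 2 ≤ D * ((2 + π) * ((J : ℝ) ^ (2 * p) / A)) := by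
    refine h2.trans (mul_le_mul_of_nonneg_left ?_ hD0.le)
    have h5 : (J : ℝ) ^ (2 * p) * ∫ r in (-T)..T, (1 + (A * r) ^ 2)⁻¹ ≤ (J : ℝ) ^ (2 * p) * (π / A) := by gcongr
    have h6 : (T - -T) * ((J : ℝ) ^ (2 * p) / A) ≤ 2 * ((J : ℝ) ^ (2 * p) / A) := by
      apply mul_le_mul_of_nonneg_right _ (by positivity)
      linarith
    calc _ ≤ 2 * ((J : ℝ) ^ (2 * p) / A) + (J : ℝ) ^ (2 * p) * (π / A) := add_le_add h6 h5
      _ = _ := by ring
  calc _ ≤ 4 / T * ∫ r in (-T)..T, ‖GG lam r‖ ^ 2 := h1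
    _ ≤ 4 / T * (D * ((2 + π) * ((J : ℝ) ^ (2 * p) / A))) := by gcongr
    _ = _ := by ring

end Pool.Agent.W5h23.SF
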